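import Pool.Agent.H21.BK.Words

/-!
# Comparison with the series of Broadhurst and Kreimer up to weight 50
-/

set_option autoImplicit false

namespace Pool.Agent.H21.BK

open Finset

/-- the inverse of a power series with constant term `1` -/
noncomputable def inv {R : Type} [CommRing R] (φ : PowerSeries R) : PowerSeries R :=
  PowerSeries.invOfUnit φ 1

/-- `E(X) = X² / (1 - X²)` -/
noncomputable def E : PowerSeries ℤ := PowerSeries.X ^ 2 * inv (1 - PowerSeries.X ^ 2)

/-- `O(X) = X³ / (1 - X²)` -/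
noncomputable def O : PowerSeries ℤ := PowerSeries.X ^ 3 * inv (1 - PowerSeries.X ^ 2)

/-- `S(X) = X¹² / ((1 - X⁴) (1 - X⁶))` -/
noncomputable def S : PowerSeries ℤ :=
  PowerSeries.X ^ 12 * inv ((1 - PowerSeries.X ^ 4) * (1 - PowerSeries.X ^ 6))

/-- a series in `X` as a series in `X` and `Y` -/
noncomputable def cst (φ : PowerSeries ℤ) : PowerSeries (PowerSeries ℤ) := PowerSeries.C φ

/-- the variable `Y` -/
noncomputable def Y : PowerSeries (PowerSeries ℤ) := PowerSeries.X

/-- `(1 + E(X) Y) / (1 - O(X) Y + S(X) Y² - S(X) Y⁴)` -/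
noncomputable def bkSeries : PowerSeries (PowerSeries ℤ) :=
  (1 + cst E * Y) * inv (1 - cst O * Y + cst S * Y ^ 2 - cst S * Y ^ 4)

/-- the coefficient of `X^k Y^r` -/
noncomputable def bk (k r : ℕ) : ℤ := PowerSeries.coeff k (PowerSeries.coeff r bkSeries)

theorem mul_inv' {R : Type} [CommRing R] (φ : PowerSeries R) (h : PowerSeries.constantCoeff φ = 1) :
    φ * inv φ = 1 := by
  unfold inv
  rw [PowerSeries.mul_invOfUnit]
  rw [h]
  simp

theorem series_eq {φ u v : PowerSeries ℤ} (hu : PowerSeries.constantCoeff u = 1) (h : φ * u = v) :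
    v * inv u = φ := by
  rw [← h, mul_assoc, mul_inv' u hu, mul_one]

theorem E_eq : E = PowerSeries.mk fun i => if i % 2 = 0 ∧ 2 ≤ i then 1 else 0 := by
  refine series_eq (by simp) ?_
  ext n
  rw [mul_sub, mul_one, map_sub, PowerSeries.coeff_mul_X_pow', PowerSeries.coeff_mk,
    PowerSeries.coeff_mk, PowerSeries.coeff_X_pow]
  split_ifs <;> omega

theorem O_eq : O = PowerSeries.mk fun i => if i % 2 = 1 ∧ 3 ≤ i then 1 else 0 := by
  refine series_eq (by simp) ?_
  ext n
  rw [mul_sub, mul_one, map_sub, PowerSeries.coeff_mul_X_pow', PowerSeries.coeff_mk,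
    PowerSeries.coeff_mk, PowerSeries.coeff_X_pow]
  split_ifs <;> omega

theorem dimS_rec (n : ℕ) : (dimS n : ℤ) - (if 4 ≤ n then (dimS (n - 4) : ℤ) else 0) -
    (if 6 ≤ n then (dimS (n - 6) : ℤ) else 0) + (if 10 ≤ n then (dimS (n - 10) : ℤ) else 0) =
    if n = 12 then 1 else 0 := by
  unfold dimS
  rcases Nat.lt_or_ge n 24 with h | h
  · interval_cases n <;> simp
  · rw [if_pos (by omega : 4 ≤ n), if_pos (by omega : 6 ≤ n), if_pos (by omega : 10 ≤ n),
      if_neg (by omega : ¬ n = 12)]
    rcases Nat.even_or_odd n with he | ho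
    · have h0 := Nat.even_iff.1 he
      rw [if_neg (by omega : ¬ n % 2 = 1), if_neg (by omega : ¬ (n - 4) % 2 = 1),
        if_neg (by omega : ¬ (n - 6) % 2 = 1), if_neg (by omega : ¬ (n - 10) % 2 = 1)]
      split_ifs <;> omega
    · have h0 := Nat.odd_iff.1 ho
      rw [if_pos (by omega : n % 2 = 1), if_pos (by omega : (n - 4) % 2 = 1),
        if_pos (by omega : (n - 6) % 2 = 1), if_pos (by omega : (n - 10) % 2 = 1)]
      simp

theorem S_eq : S = PowerSeries.mk fun i => (dimS i : ℤ) := by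
  refine series_eq (by simp) ?_
  have e : (PowerSeries.mk fun i => (dimS i : ℤ)) *
      ((1 - PowerSeries.X ^ 4) * (1 - PowerSeries.X ^ 6)) =
      (PowerSeries.mk fun i => (dimS i : ℤ)) - (PowerSeries.mk fun i => (dimS i : ℤ)) * PowerSeries.X ^ 4
      - (PowerSeries.mk fun i => (dimS i : ℤ)) * PowerSeries.X ^ 6
      + (PowerSeries.mk fun i => (dimS i : ℤ)) * PowerSeries.X ^ 10 := by ring
  rw [e]
  ext n
  rw [map_add, map_sub, map_sub, PowerSeries.coeff_mul_X_pow', PowerSeries.coeff_mul_X_pow',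
    PowerSeries.coeff_mul_X_pow', PowerSeries.coeff_mk, PowerSeries.coeff_mk, PowerSeries.coeff_mk,
    PowerSeries.coeff_mk, PowerSeries.coeff_X_pow]
  exact dimS_rec n

/-! ### words -/

theorem wl_congr {n m k : ℕ} (hn : k ≤ n) (hm : k ≤ m) : wl n k = wl m k := by
  ext w
  rw [mem_wl n k hn, mem_wl m k hm]

theorem wl_zero : wl 0 0 = {[]} := by
  rw [wl, if_pos rfl]

theorem sum_wl {k : ℕ} (hk : 0 < k) (f : List ℕ → ℤ) :
    ∑ w ∈ wl k k, f w = ∑ a ∈ range (k + 1), if a % 2 = 1 ∧ 3 ≤ a then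
      ∑ u ∈ wl (k - a) (k - a), f (a :: u) else 0 := by
  obtain ⟨n, rfl⟩ : ∃ n, k = n + 1 := ⟨k - 1, by omega⟩
  rw [wl, if_neg (by omega), Finset.sum_biUnion]
  · rw [Finset.sum_filter]
    refine Finset.sum_congr rfl fun a ha => ?_
    split_ifs with h
    · rw [Finset.sum_image (fun x _ y _ hxy => (List.cons.inj hxy).2),
        wl_congr (n := n) (m := n + 1 - a) (by omega) le_rfl]
    · rfl
  · intro a _ b _ hab
    rw [Function.onFun, Finset.disjoint_left]
    intro w h1 h2
    rw [Finset.mem_image] at h1 h2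
    obtain ⟨u, -, rfl⟩ := h1
    obtain ⟨v, -, h⟩ := h2
    exact hab (List.cons.inj h).1.symm

/-- the number of words of weight `m` and depth `r - t` -/
def wc (m r t : ℕ) : ℤ := ∑ w ∈ wl m m, if dep w + t = r then 1 else 0

theorem wc_shift (m r t : ℕ) : wc m r t = if t ≤ r then wc m (r - t) 0 else 0 := by
  unfold wc
  split_ifs with h
  · refine Finset.sum_congr rfl fun w _ => ?_
    congr 1
    rw [eq_iff_iff]
    omega
  · refine Finset.sum_eq_zero fun w _ => ?_
    rw [if_neg (by omega)]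

theorem dimS_le (k : ℕ) : dimS k ≤ k / 12 := by
  unfold dimS
  split_ifs <;> omega

/-- no overlaps up to weight 50 -/
theorem no_overlap {a b c : ℕ} (h : a + b + c ≤ 50) (hc : 3 ≤ c) (h1 : b ≤ 2 * dimS (a + b) + 1)
    (h2 : c ≤ 2 * dimS (b + c) + 1) : False := by
  have := dimS_le (a + b)
  have := dimS_le (b + c)
  omega

theorem dep_cons_cons (a b : ℕ) (v : List ℕ) :
    dep (a :: b :: v) = if b ≤ 2 * dimS (a + b) + 1 then dep v + 4 else dep (b :: v) + 1 := by
  unfold dep
  rw [npat]
  split_ifs <;> simp only [List.length_cons] <;> ring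

theorem dep_single (a : ℕ) : dep [a] = 1 := rfl

theorem dep_nil : dep [] = 0 := rfl

/-- the number of patterns of weight `i` -/
theorem pat_count (i k : ℕ) (hi : i ≤ k) : (∑ a ∈ range (k + 1), ∑ b ∈ range (k + 1),
    if a + b = i ∧ (a % 2 = 1 ∧ 3 ≤ a) ∧ (b % 2 = 1 ∧ 3 ≤ b) ∧ b ≤ 2 * dimS (a + b) + 1
      then (1 : ℤ) else 0) = dimS i := by
  rw [Finset.sum_comm]
  have h1 : ∀ b ∈ range (k + 1), (∑ a ∈ range (k + 1),
      if a + b = i ∧ (a % 2 = 1 ∧ 3 ≤ a) ∧ (b % 2 = 1 ∧ 3 ≤ b) ∧ b ≤ 2 * dimS (a + b) + 1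
      then (1 : ℤ) else 0) = if b ∈ (range (dimS i)).image (fun j => 2 * j + 3) then 1 else 0 := by
    intro b hb
    by_cases hcond : b ∈ (range (dimS i)).image (fun j => 2 * j + 3)
    · rw [if_pos hcond]
      rw [Finset.mem_image] at hcond
      obtain ⟨j, hj, rfl⟩ := hcond
      rw [mem_range] at hj
      have hd := dimS_le i
      have hpar : i % 2 = 0 := by
        by_contra hne
        have : dimS i = 0 := by
          unfold dimS
          rw [if_pos (by omega)]
        omega
      rw [Finset.sum_eq_single (i - (2 * j + 3))]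
      · rw [if_pos]
        refine ⟨by omega, ⟨by omega, by omega⟩, ⟨by omega, by omega⟩, ?_⟩
        rw [Nat.sub_add_cancel (by omega)]
        omega
      · intro a _ ha
        rw [if_neg]
        rintro ⟨h, -⟩
        omega
      · intro h
        exact absurd (mem_range.2 (by omega)) h
    · rw [if_neg hcond]
      refine Finset.sum_eq_zero fun a _ => ?_
      rw [if_neg]
      rintro ⟨h1, h2, h3, h4⟩
      apply hcond
      rw [Finset.mem_image]
      rw [h1] at h4
      exact ⟨(b - 3) / 2, mem_range.2 (by omega), by omega⟩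
  rw [Finset.sum_congr rfl h1, ← Finset.sum_filter, Finset.sum_const, nsmul_eq_mul, mul_one]
  have h2 : (range (k + 1)).filter (fun b => b ∈ (range (dimS i)).image (fun j => 2 * j + 3)) =
      (range (dimS i)).image (fun j => 2 * j + 3) := by
    ext b
    rw [Finset.mem_filter, and_iff_right_iff_imp, Finset.mem_image]
    rintro ⟨j, hj, rfl⟩
    rw [mem_range] at hj ⊢
    have := dimS_le i
    omega
  rw [h2, Finset.card_image_of_injective _
    (fun x y h => by have h' : 2 * x + 3 = 2 * y + 3 := h; omega), Finset.card_range]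

/-- the recursion for the number of words, up to weight 50 -/
theorem wc_rec {k : ℕ} (hk : k ≤ 50) (r : ℕ) : wc k r 0 = (if k = 0 ∧ r = 0 then 1 else 0) +
    ∑ a ∈ range (k + 1), (if a % 2 = 1 ∧ 3 ≤ a then (1 : ℤ) else 0) * wc (k - a) r 1 +
    ∑ i ∈ range (k + 1), (dimS i : ℤ) * (wc (k - i) r 4 - wc (k - i) r 2) := by
  rcases Nat.eq_zero_or_pos k with h0 | hpos
  · subst h0
    simp only [wc, wl_zero, Finset.sum_singleton, dep_nil, dimS, Finset.range_one, zero_add,
      Nat.sub_zero, Nat.zero_mod, Nat.zero_div]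
    by_cases hr : r = 0
    · simp [hr]
    · simp [hr, Ne.symm hr]
  rw [if_neg (by omega), zero_add]
  unfold wc
  rw [sum_wl hpos]
  -- the correction for a pattern at the beginning
  have key : ∀ a ∈ range (k + 1), (if a % 2 = 1 ∧ 3 ≤ a then ∑ u ∈ wl (k - a) (k - a),
      (if dep (a :: u) + 0 = r then (1 : ℤ) else 0) else 0) =
      (if a % 2 = 1 ∧ 3 ≤ a then (1 : ℤ) else 0) * wc (k - a) r 1 +
      ∑ b ∈ range (k + 1), if a + b ≤ k ∧ (a % 2 = 1 ∧ 3 ≤ a) ∧ (b % 2 = 1 ∧ 3 ≤ b) ∧
        b ≤ 2 * dimS (a + b) + 1 then wc (k - (a + b)) r 4 - wc (k - (a + b)) r 2 else 0 := by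
    intro a ha
    rw [mem_range] at ha
    by_cases hoa : a % 2 = 1 ∧ 3 ≤ a
    · rw [if_pos hoa, if_pos hoa, one_mul]
      rcases Nat.eq_zero_or_pos (k - a) with h1 | h1
      · rw [h1]
        have e1 : ∑ b ∈ range (k + 1), (if a + b ≤ k ∧ (a % 2 = 1 ∧ 3 ≤ a) ∧ (b % 2 = 1 ∧ 3 ≤ b) ∧
            b ≤ 2 * dimS (a + b) + 1 then wc (k - (a + b)) r 4 - wc (k - (a + b)) r 2 else 0) = 0 := by
          refine Finset.sum_eq_zero fun b _ => ?_
          rw [if_neg]
          rintro ⟨h2, -, h3, -⟩
          omega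
        rw [e1, wl_zero, wc, wl_zero, Finset.sum_singleton, Finset.sum_singleton, dep_single,
          dep_nil]
        norm_num
      · rw [wc, sum_wl h1, sum_wl h1]
        -- sums over the second letter
        have e2 : ∀ b ∈ range (k - a + 1), (if b % 2 = 1 ∧ 3 ≤ b then
            ∑ u ∈ wl (k - a - b) (k - a - b), (if dep (a :: b :: u) + 0 = r then (1 : ℤ) else 0)
            else 0) = (if b % 2 = 1 ∧ 3 ≤ b then
            ∑ u ∈ wl (k - a - b) (k - a - b), (if dep (b :: u) + 1 = r then (1 : ℤ) else 0) else 0) +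
            (if (b % 2 = 1 ∧ 3 ≤ b) ∧ b ≤ 2 * dimS (a + b) + 1 then
              wc (k - (a + b)) r 4 - wc (k - (a + b)) r 2 else 0) := by
          intro b hb
          rw [mem_range] at hb
          by_cases hob : b % 2 = 1 ∧ 3 ≤ b
          · rw [if_pos hob, if_pos hob]
            by_cases hp : b ≤ 2 * dimS (a + b) + 1
            · rw [if_pos ⟨hob, hp⟩]
              unfold wc
              rw [← Finset.sum_sub_distrib, show k - (a + b) = k - a - b by omega,
                ← Finset.sum_add_distrib]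
              refine Finset.sum_congr rfl fun u hu => ?_
              rw [mem_wl _ _ le_rfl] at hu
              rw [dep_cons_cons, if_pos hp]
              have e3 : dep (b :: u) = dep u + 1 := by
                rcases u with _ | ⟨c, v⟩
                · rfl
                · rw [dep_cons_cons, if_neg]
                  intro h4
                  have hc := hu.1 c (by simp)
                  have hs := hu.2
                  rw [List.sum_cons] at hs
                  exact no_overlap (by omega) hc.2 hp h4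
              rw [e3]
              ring_nf
            · rw [if_neg (fun h => hp h.2), add_zero]
              refine Finset.sum_congr rfl fun u _ => ?_
              rw [dep_cons_cons, if_neg hp, add_zero]
          · rw [if_neg hob, if_neg hob, if_neg (fun h => hob h.1), add_zero]
        rw [Finset.sum_congr rfl e2, Finset.sum_add_distrib]
        congr 1
        -- extend the range
        have e4 : ∀ b ∈ range (k - a + 1), (if (b % 2 = 1 ∧ 3 ≤ b) ∧ b ≤ 2 * dimS (a + b) + 1 then
              wc (k - (a + b)) r 4 - wc (k - (a + b)) r 2 else 0) =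
            if a + b ≤ k ∧ (a % 2 = 1 ∧ 3 ≤ a) ∧ (b % 2 = 1 ∧ 3 ≤ b) ∧
              b ≤ 2 * dimS (a + b) + 1 then wc (k - (a + b)) r 4 - wc (k - (a + b)) r 2 else 0 := by
          intro b hb
          rw [mem_range] at hb
          congr 1
          rw [eq_iff_iff]
          constructor
          · rintro ⟨h2, h3⟩
            exact ⟨by omega, hoa, h2, h3⟩
          · rintro ⟨-, -, h2, h3⟩
            exact ⟨h2, h3⟩
        rw [Finset.sum_congr rfl e4]
        apply Finset.sum_subset
        · intro b hb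
          rw [mem_range] at hb ⊢
          omega
        · intro b _ hb
          rw [mem_range] at hb
          rw [if_neg]
          rintro ⟨h2, -⟩
          omega
    · rw [if_neg hoa, if_neg hoa, zero_mul, zero_add]
      symm
      refine Finset.sum_eq_zero fun b _ => ?_
      rw [if_neg (fun h => hoa h.2.1)]
  rw [Finset.sum_congr rfl key, Finset.sum_add_distrib]
  congr 1
  -- collect by the sum `i = a + b`
  have e5 : ∀ a ∈ range (k + 1), (∑ b ∈ range (k + 1), if a + b ≤ k ∧ (a % 2 = 1 ∧ 3 ≤ a) ∧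
      (b % 2 = 1 ∧ 3 ≤ b) ∧ b ≤ 2 * dimS (a + b) + 1 then
      wc (k - (a + b)) r 4 - wc (k - (a + b)) r 2 else 0) =
      ∑ b ∈ range (k + 1), ∑ i ∈ range (k + 1), (if a + b = i ∧ (a % 2 = 1 ∧ 3 ≤ a) ∧
        (b % 2 = 1 ∧ 3 ≤ b) ∧ b ≤ 2 * dimS (a + b) + 1 then (1 : ℤ) else 0) *
        (wc (k - i) r 4 - wc (k - i) r 2) := by
    intro a _
    refine Finset.sum_congr rfl fun b _ => ?_
    by_cases hab : a + b ≤ k
    · rw [Finset.sum_eq_single (a + b)]
      · by_cases h2 : (a % 2 = 1 ∧ 3 ≤ a) ∧ (b % 2 = 1 ∧ 3 ≤ b) ∧ b ≤ 2 * dimS (a + b) + 1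
        · rw [if_pos ⟨hab, h2⟩, if_pos ⟨rfl, h2⟩, one_mul]
        · rw [if_neg (fun h => h2 h.2), if_neg (fun h => h2 h.2), zero_mul]
      · intro i _ hi
        rw [if_neg (fun h => hi h.1.symm), zero_mul]
      · intro h
        exact absurd (mem_range.2 (by omega)) h
    · rw [if_neg (fun h => hab h.1)]
      symm
      refine Finset.sum_eq_zero fun i hi => ?_
      rw [mem_range] at hi
      rw [if_neg, zero_mul]
      rintro ⟨h, -⟩
      omega
  rw [Finset.sum_congr rfl e5]
  have e6 : ∑ a ∈ range (k + 1), ∑ b ∈ range (k + 1), ∑ i ∈ range (k + 1),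
      (if a + b = i ∧ (a % 2 = 1 ∧ 3 ≤ a) ∧ (b % 2 = 1 ∧ 3 ≤ b) ∧
        b ≤ 2 * dimS (a + b) + 1 then (1 : ℤ) else 0) * (wc (k - i) r 4 - wc (k - i) r 2) =
      ∑ i ∈ range (k + 1), ∑ a ∈ range (k + 1), ∑ b ∈ range (k + 1),
      (if a + b = i ∧ (a % 2 = 1 ∧ 3 ≤ a) ∧ (b % 2 = 1 ∧ 3 ≤ b) ∧
        b ≤ 2 * dimS (a + b) + 1 then (1 : ℤ) else 0) * (wc (k - i) r 4 - wc (k - i) r 2) := by
    rw [Finset.sum_congr rfl fun a _ => Finset.sum_comm]
    exact Finset.sum_comm
  rw [e6]
  refine Finset.sum_congr rfl fun i hi => ?_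
  rw [mem_range] at hi
  have e7 := pat_count i k (by omega)
  rw [← e7, Finset.sum_mul]
  refine Finset.sum_congr rfl fun a _ => ?_
  rw [Finset.sum_mul]
  rfl

/-! ### the series -/

/-- `1 / (1 - O(X) Y + S(X) Y² - S(X) Y⁴)` -/
noncomputable def Dser : PowerSeries (PowerSeries ℤ) :=
  inv (1 - cst O * Y + cst S * Y ^ 2 - cst S * Y ^ 4)

theorem Dser_eq : Dser = 1 + cst O * (Y ^ 1 * Dser) - cst S * (Y ^ 2 * Dser) +
    cst S * (Y ^ 4 * Dser) := by
  have h := mul_inv' (1 - cst O * Y + cst S * Y ^ 2 - cst S * Y ^ 4) (by simp [Y])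
  have h' : (1 - cst O * Y + cst S * Y ^ 2 - cst S * Y ^ 4) * Dser = 1 := h
  linear_combination h'

theorem coeff_term (φ : PowerSeries ℤ) (t k r : ℕ) (F : PowerSeries (PowerSeries ℤ)) :
    PowerSeries.coeff k (PowerSeries.coeff r (cst φ * (Y ^ t * F))) =
      if t ≤ r then ∑ i ∈ range (k + 1), PowerSeries.coeff i φ *
        PowerSeries.coeff (k - i) (PowerSeries.coeff (r - t) F) else 0 := by
  unfold cst Y
  rw [PowerSeries.coeff_C_mul, PowerSeries.coeff_X_pow_mul']
  split_ifs
  · rw [PowerSeries.coeff_mul, Finset.Nat.sum_antidiagonal_eq_sum_range_succ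
      (fun i j => PowerSeries.coeff i φ * PowerSeries.coeff j (PowerSeries.coeff (r - t) F))]
  · simp

theorem Dser_coeff (r : ℕ) : ∀ k ≤ 50, PowerSeries.coeff k (PowerSeries.coeff r Dser) = wc k r 0 := by
  induction r using Nat.strong_induction_on with
  | _ r ih =>
    intro k hk
    rw [Dser_eq, wc_rec hk]
    simp only [map_add, map_sub, coeff_term]
    have e0 : PowerSeries.coeff k (PowerSeries.coeff r (1 : PowerSeries (PowerSeries ℤ))) =
        if k = 0 ∧ r = 0 then 1 else 0 := by
      rw [PowerSeries.coeff_one]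
      by_cases hr : r = 0
      · rw [if_pos hr, PowerSeries.coeff_one]
        simp [hr]
      · rw [if_neg hr, map_zero, if_neg (fun h => hr h.2)]
    have e1 : ∀ t, 1 ≤ t → ∀ φ : PowerSeries ℤ, (if t ≤ r then ∑ i ∈ range (k + 1),
        PowerSeries.coeff i φ * PowerSeries.coeff (k - i) (PowerSeries.coeff (r - t) Dser) else 0) =
        ∑ i ∈ range (k + 1), PowerSeries.coeff i φ * wc (k - i) r t := by
      intro t ht φ
      split_ifs with h
      · refine Finset.sum_congr rfl fun i _ => ?_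
        rw [ih (r - t) (by omega) (k - i) (by omega), wc_shift (k - i) r t, if_pos h]
      · symm
        refine Finset.sum_eq_zero fun i _ => ?_
        rw [wc_shift, if_neg h, mul_zero]
    rw [e0, e1 1 le_rfl, e1 2 (by omega), e1 4 (by omega)]
    simp only [O_eq, S_eq, PowerSeries.coeff_mk]
    simp only [mul_sub, Finset.sum_sub_distrib]
    ring

theorem bk_eq {k : ℕ} (hk : k ≤ 50) (r : ℕ) : bk k r = wc k r 0 +
    ∑ i ∈ range (k + 1), (if i % 2 = 0 ∧ 2 ≤ i then (1 : ℤ) else 0) * wc (k - i) r 1 := by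
  have h1 : bkSeries = Dser + cst E * (Y ^ 1 * Dser) := by
    show (1 + cst E * Y) * Dser = _
    ring
  unfold bk
  rw [h1, map_add, map_add, coeff_term, Dser_coeff r k hk]
  congr 1
  split_ifs with h
  · refine Finset.sum_congr rfl fun i _ => ?_
    rw [Dser_coeff (r - 1) (k - i) (by omega), E_eq, PowerSeries.coeff_mk, wc_shift (k - i) r 1,
      if_pos h]
  · symm
    refine Finset.sum_eq_zero fun i _ => ?_
    rw [wc_shift, if_neg h, mul_zero]

/-- the number of indices as a sum -/
theorem ncard_idx (k r : ℕ) : ((Idx k r).ncard : ℤ) = ∑ i ∈ range (k + 1),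
    if i % 2 = 0 then ∑ w ∈ wl (k - i) (k - i),
      (if dep w + (if i = 0 then 0 else 1) ≤ r then (1 : ℤ) else 0) else 0 := by
  classical
  have h1 : Idx k r = ↑(((range (k + 1)).filter fun i => i % 2 = 0).biUnion fun i =>
      (((wl (k - i) (k - i)).filter fun w => dep w + (if i = 0 then 0 else 1) ≤ r).image
        fun w => (w, i / 2))) := by
    ext ⟨w, j⟩
    rw [Finset.mem_coe, Finset.mem_biUnion]
    constructor
    · rintro ⟨h1, h2, h3⟩
      simp only at h1 h2 h3
      refine ⟨2 * j, ?_, ?_⟩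
      · rw [Finset.mem_filter, mem_range]
        exact ⟨by omega, by omega⟩
      · rw [Finset.mem_image]
        refine ⟨w, ?_, by simp⟩
        rw [Finset.mem_filter, mem_wl _ _ le_rfl]
        refine ⟨⟨h1, by omega⟩, ?_⟩
        by_cases hj : j = 0
        · rw [if_pos hj] at h3
          rw [if_pos (by omega)]
          exact h3
        · rw [if_neg hj] at h3
          rw [if_neg (by omega)]
          exact h3
    · rintro ⟨i, hi, h⟩
      rw [Finset.mem_filter, mem_range] at hi
      rw [Finset.mem_image] at h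
      obtain ⟨u, hu, he⟩ := h
      rw [Finset.mem_filter, mem_wl _ _ le_rfl] at hu
      obtain ⟨rfl, rfl⟩ := Prod.mk.inj he
      refine ⟨hu.1.1, ?_, ?_⟩
      · show u.sum + 2 * (i / 2) = k
        have := hu.1.2
        omega
      · show dep u + (if i / 2 = 0 then 0 else 1) ≤ r
        have h2 := hu.2
        by_cases hj : i = 0
        · rw [if_pos hj] at h2
          rw [if_pos (by omega)]
          exact h2
        · rw [if_neg hj] at h2
          rw [if_neg (by omega)]
          exact h2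
  rw [h1, Set.ncard_coe_finset, Finset.card_biUnion]
  · push_cast
    rw [Finset.sum_filter]
    refine Finset.sum_congr rfl fun i _ => ?_
    by_cases h2 : i % 2 = 0
    · rw [if_pos h2, if_pos h2,
        Finset.card_image_of_injective _ (fun x y h => (Prod.mk.inj h).1), Finset.card_filter,
        Nat.cast_sum]
      refine Finset.sum_congr rfl fun w _ => ?_
      rw [Nat.cast_ite, Nat.cast_one, Nat.cast_zero]
    · rw [if_neg h2, if_neg h2]
  · intro i hi j hj hij
    rw [Function.onFun, Finset.disjoint_left]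
    intro p hp hq
    rw [Finset.mem_image] at hp hq
    obtain ⟨u, -, rfl⟩ := hp
    obtain ⟨v, -, he⟩ := hq
    rw [Finset.mem_coe, Finset.mem_filter] at hi hj
    have := (Prod.mk.inj he).2
    omega

theorem sum_wc (m r t : ℕ) : ∑ q ∈ range (r + 1), wc m q t =
    ∑ w ∈ wl m m, (if dep w + t ≤ r then (1 : ℤ) else 0) := by
  unfold wc
  rw [Finset.sum_comm]
  refine Finset.sum_congr rfl fun w _ => ?_
  rw [Finset.sum_ite_eq]
  by_cases h : dep w + t ≤ r
  · rw [if_pos (mem_range.2 (by omega)), if_pos h]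
  · rw [if_neg (fun h' => h (by rw [mem_range] at h'; omega)), if_neg h]

/-- **Up to weight 50 the bound is the number of Broadhurst and Kreimer.** -/
theorem ncard_eq {k : ℕ} (hk : k ≤ 50) (r : ℕ) :
    ((Idx k r).ncard : ℤ) = ∑ q ∈ range (r + 1), bk k q := by
  rw [ncard_idx]
  simp only [bk_eq hk, Finset.sum_add_distrib]
  rw [Finset.sum_comm, sum_wc, Finset.sum_range_succ']
  have e1 : ∀ i ∈ range (k + 1), (∑ q ∈ range (r + 1),
      (if i % 2 = 0 ∧ 2 ≤ i then (1 : ℤ) else 0) * wc (k - i) q 1) =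
      if i % 2 = 0 ∧ 2 ≤ i then ∑ w ∈ wl (k - i) (k - i),
        (if dep w + 1 ≤ r then (1 : ℤ) else 0) else 0 := by
    intro i _
    rw [← Finset.mul_sum, sum_wc]
    split_ifs <;> simp
  rw [Finset.sum_congr rfl e1, Finset.sum_range_succ' (n := k)]
  simp only [Nat.zero_mod, Nat.sub_zero, if_true, add_zero]
  rw [if_neg (by omega : ¬ (True ∧ 2 ≤ 0)), add_zero, add_comm]
  congr 1
  refine Finset.sum_congr rfl fun i _ => ?_
  by_cases h : (i + 1) % 2 = 0
  · rw [if_pos h, if_pos (⟨h, by omega⟩ : (i + 1) % 2 = 0 ∧ 2 ≤ i + 1)]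
    refine Finset.sum_congr rfl fun w _ => ?_
    rw [if_neg (by omega : ¬ i + 1 = 0)]
  · rw [if_neg h, if_neg (fun h' => h h'.1)]

end Pool.Agent.H21.BK
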