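import Pool.Agent.H21.BK.Sym

/-!
# Parity in depth three for the linearised double shuffle relations
-/

set_option autoImplicit false

namespace Pool.Agent.H21.BK

open Pool.Agent.H777R4.DM Pool.Agent.H159.LS Finset

attribute [local instance 100] LieRing.ofAssociativeRing

/-- value of a word in the letters `y` -/
def valY : List ℕ → List ℚ → ℚ
  | [], [] => 1
  | a :: v, x :: xs => x ^ a * valY v xs
  | [], _ :: _ => 0
  | _ :: _, [] => 0

noncomputable def PsiY (xs : List ℚ) : AY →ₗ[ℚ] ℚ := lext (fun v => valY v xs)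

theorem PsiY_wd (xs : List ℚ) (v : List ℕ) : PsiY xs (wd v) = valY v xs := lext_wd _ _

theorem valY_length (v : List ℕ) : ∀ xs : List ℚ, valY v xs ≠ 0 → v.length = xs.length := by
  induction v with
  | nil =>
    intro xs h
    rcases xs with _ | ⟨x, xs⟩
    · rfl
    · exact absurd rfl h
  | cons a v ih =>
    intro xs h
    rcases xs with _ | ⟨x, xs⟩
    · exact absurd rfl h
    · simp only [valY] at h
      simp [ih xs (right_ne_zero_of_mul h)]

theorem valY_snoc (v : List ℕ) (a : ℕ) (x : ℚ) : ∀ xs : List ℚ,
    valY (v ++ [a]) (xs ++ [x]) = x ^ a * valY v xs := by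
  induction v with
  | nil =>
    intro xs
    rcases xs with _ | ⟨y, xs⟩
    · simp [valY]
    · rcases xs with _ | ⟨y', xs⟩ <;> simp [valY]
  | cons b v ih =>
    intro xs
    rcases xs with _ | ⟨y, xs⟩
    · rcases v with _ | ⟨b', v⟩ <;> simp [valY]
    · simp only [List.cons_append, valY, ih]
      ring

theorem valY_reverse (v : List ℕ) : ∀ xs : List ℚ, valY v.reverse xs.reverse = valY v xs := by
  induction v with
  | nil =>
    intro xs
    rcases xs with _ | ⟨y, xs⟩
    · simp
    · rw [List.reverse_nil]
      by_cases h : valY [] (y :: xs).reverse = 0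
      · rw [h]; rfl
      · have := valY_length _ _ h
        simp at this
  | cons a v ih =>
    intro xs
    rcases xs with _ | ⟨y, xs⟩
    · rw [List.reverse_nil]
      by_cases h : valY (a :: v).reverse [] = 0
      · rw [h]; rfl
      · have := valY_length _ _ h
        simp at this
    · rw [List.reverse_cons, List.reverse_cons, valY_snoc, ih]
      rfl

theorem PsiY_zero_of (xs : List ℚ) (P : AY) (h : ∀ v, v.length = xs.length → co P v = 0) :
    PsiY xs P = 0 := by
  have h1 : PsiY xs P = ∑ m ∈ P.coeff.support,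
      co P (FreeMonoid.toList m) * valY (FreeMonoid.toList m) xs := by
    have h2 : P = ∑ m ∈ P.coeff.support, co P (FreeMonoid.toList m) • wd (FreeMonoid.toList m) := by
      conv_lhs => rw [← MonoidAlgebra.sum_coeff_single P]
      rw [Finsupp.sum]
      refine Finset.sum_congr rfl fun m _ => ?_
      rw [wd, MonoidAlgebra.of_apply, MonoidAlgebra.smul_single, smul_eq_mul, mul_one]
      rfl
    conv_lhs => rw [h2]
    rw [map_sum]
    refine Finset.sum_congr rfl fun m _ => ?_
    rw [map_smul, PsiY_wd]
    rfl
  rw [h1]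
  refine Finset.sum_eq_zero fun m _ => ?_
  by_cases hv : valY (FreeMonoid.toList m) xs = 0
  · rw [hv, mul_zero]
  · rw [h _ (valY_length _ _ hv), zero_mul]

noncomputable def rvY : AY →ₗ[ℚ] AY := lext (fun v => wd v.reverse)

theorem co_rvY (P : AY) (v : List ℕ) : co (rvY P) v = co P v.reverse := by
  induction P using al_induction with
  | h1 w =>
    unfold rvY
    rw [lext_wd, co_wd, co_wd]
    by_cases h : w = v.reverse
    · rw [if_pos h, if_pos (by rw [h, List.reverse_reverse])]
    · rw [if_neg h, if_neg]
      intro h1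
      exact h (by rw [← h1, List.reverse_reverse])
  | h2 P Q hP hQ => rw [map_add, H777R4.DM.co_add, H777R4.DM.co_add, hP, hQ]
  | h3 c P hP => rw [map_smul, H777R4.DM.co_smul, H777R4.DM.co_smul, hP]

theorem PsiY_rvY (xs : List ℚ) (P : AY) : PsiY xs.reverse (rvY P) = PsiY xs P := by
  induction P using al_induction with
  | h1 w =>
    unfold rvY
    rw [lext_wd, PsiY_wd, PsiY_wd, valY_reverse]
  | h2 P Q hP hQ => rw [map_add, map_add, map_add, hP, hQ]
  | h3 c P hP => rw [map_smul, map_smul, map_smul, hP]

/-! ### words ending in `x₁` -/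

theorem val_rep (a : ℕ) (w : List (Fin 2)) (zs : List ℚ) :
    val (List.replicate a 0 ++ w) zs = (zs.headD 0) ^ a * val w zs := by
  induction a with
  | zero => simp
  | succ a ih => rw [List.replicate_succ, List.cons_append, val_zero, ih, pow_succ]; ring

theorem val_wordX (v : List ℕ) (k : ℕ) : ∀ xs : List ℚ,
    val (wordX v ++ List.replicate k 0) (xs ++ [0]) = if k = 0 then valY v xs else 0 := by
  induction v with
  | nil =>
    intro xs
    rw [wordX, List.nil_append, ← List.append_nil (List.replicate k (0 : Fin 2)), val_rep]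
    rcases xs with _ | ⟨x, xs⟩
    · rcases Nat.eq_zero_or_pos k with h | h
      · subst h; simp [val, valY]
      · rw [if_neg (by omega)]
        simp [zero_pow (by omega : k ≠ 0)]
    · simp [val, valY]
  | cons a v ih =>
    intro xs
    rw [wordX, List.append_assoc, val_rep, List.cons_append, val_one]
    rcases xs with _ | ⟨x, xs⟩
    · simp [val_nil_list, valY]
    · rw [List.cons_append, List.tail_cons, List.headD_cons, ih]
      split_ifs
      · rfl
      · rw [mul_zero]

theorem Psi_run (xs : List ℚ) (f : A) : Psi (xs ++ [0]) f = PsiY xs (run 0 f) := by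
  induction f using al_induction with
  | h1 u =>
    unfold run
    rw [lext_wd, Psi_wd]
    have h := wordX_strip u
    conv_lhs => rw [← h]
    rw [val_wordX]
    split_ifs
    · rw [PsiY_wd]
    · rw [map_zero]
  | h2 P Q hP hQ => rw [map_add, map_add, map_add, hP, hQ]
  | h3 c P hP => rw [map_smul, map_smul, map_smul, hP]

/-- the symmetry from the stuffle relation -/
theorem Psi_swap {f : A} (hf : ∀ F : AY, (∀ v, co F v = if v.length = 3 then co f (wordX v) else 0) →
    Prim F) (x1 x2 x3 : ℚ) : Psi [x1, x2, x3, 0] f = Psi [x3, x2, x1, 0] f := by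
  have hF : ∀ v, co (dp 3 (run 0 f)) v = if v.length = 3 then co f (wordX v) else 0 := by
    intro v
    rw [co_dp, co_run]
    simp
  have hP := hf _ hF
  have h1 : ∀ a b c : ℕ, co f (wordX [a, b, c]) = co f (wordX [c, b, a]) := by
    intro a b c
    have e1 := Pool.Agent.H988R3.DM.prim_pair _ hP a [b, c] (by simp)
    have e2 := Pool.Agent.H988R3.DM.prim_pair _ hP c [b, a] (by simp)
    simp only [List.length_cons, List.length_nil, Finset.sum_range_succ, Finset.sum_range_zero,
      hF, List.insertIdx_zero, List.insertIdx_succ_cons] at e1 e2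
    simp only [List.length_cons, List.length_nil, zero_add, Nat.reduceAdd, if_true] at e1 e2
    linarith
  have e1 : Psi [x1, x2, x3, 0] f = PsiY [x1, x2, x3] (run 0 f) := Psi_run [x1, x2, x3] f
  have e2 : Psi [x3, x2, x1, 0] f = PsiY [x3, x2, x1] (run 0 f) := Psi_run [x3, x2, x1] f
  rw [e1, e2]
  have e3 := PsiY_rvY [x3, x2, x1] (run 0 f)
  rw [← e3]
  have e4 : PsiY [x3, x2, x1].reverse (run 0 f - rvY (run 0 f)) = 0 := by
    refine PsiY_zero_of _ _ fun v hv => ?_
    rw [H777R4.DM.co_sub, co_rvY, co_run, co_run]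
    have hv3 : v.length = 3 := by simpa using hv
    obtain ⟨a, b, c, rfl⟩ : ∃ a b c, v = [a, b, c] := by
      rcases v with _ | ⟨a, _ | ⟨b, _ | ⟨c, _ | ⟨d, v⟩⟩⟩⟩ <;> simp at hv3
      exact ⟨a, b, c, rfl⟩
    have := h1 a b c
    simp only [List.reverse_cons, List.reverse_nil, List.nil_append, List.cons_append,
      List.replicate_zero, List.append_nil]
    rw [this, sub_self]
  rw [map_sub] at e4
  have e5 : PsiY [x3, x2, x1].reverse (run 0 f) = PsiY [x1, x2, x3] (run 0 f) := by
    simp
  linarith

/-- **Parity in depth three.** -/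
theorem parity3 {f : A} {N : ℕ} (hf : f ∈ LieX) (hN : LenHom f N) (hev : Even N)
    (hP : ∀ F : AY, (∀ v, co F v = if v.length = 3 then co f (wordX v) else 0) → Prim F) :
    ∀ u, u.count 1 = 3 → co f u = 0 := by
  intro u hu
  by_contra hne0
  have hN3 : 3 ≤ N := by
    rw [← hN u hne0, ← hu]
    exact List.count_le_length
  obtain ⟨m, rfl⟩ : ∃ m, N = m + 3 := ⟨N - 3, by omega⟩
  have hm : Odd m := by
    rcases Nat.even_or_odd m with h | h
    · have : Odd (m + 3) := h.add_odd (by decide)
      exact absurd hev (Nat.not_even_iff_odd.2 this)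
    · exact h
  -- the symmetries
  have hA : ∀ a b c d : ℚ, Psi [d, c, b, a] f = - Psi [a, b, c, d] f := by
    intro a b c d
    have := Psi_reverse hf hN [a, b, c, d]
    rw [hev.add_one.neg_one_pow] at this
    simpa using this
  have hB : ∀ a b c d : ℚ, Psi [-a, -b, -c, -d] f = - Psi [a, b, c, d] f := by
    intro a b c d
    have := Psi_neg hN [a, b, c, d] (m := m) (by simp)
    rw [hm.neg_one_pow] at this
    simpa using this
  have hC : ∀ a b c d t : ℚ, Psi [a + t, b + t, c + t, d + t] f = Psi [a, b, c, d] f := by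
    intro a b c d t
    exact Psi_translate hf t [a, b, c, d] (by simp)
  have hD := Psi_swap hP
  set G : ℚ → ℚ → ℚ → ℚ := fun a b c => Psi [a + b + c, b + c, c, 0] f with hG
  have h2 : ∀ a b c, G a b c = G c b a := by
    intro a b c
    show Psi [a + b + c, b + c, c, 0] f = Psi [c + b + a, b + a, a, 0] f
    rw [hA 0 c (b + c) (a + b + c)]
    have e1 := hC 0 c (b + c) (a + b + c) (-(a + b + c))
    rw [← e1]
    have e2 := hB (a + b + c) (a + b) a 0
    rw [show -(a + b + c) = 0 + -(a + b + c) by ring, show -(a + b) = c + -(a + b + c) by ring,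
      show -a = b + c + -(a + b + c) by ring, show -(0 : ℚ) = a + b + c + -(a + b + c) by ring] at e2
    rw [e2, neg_neg, show c + b + a = a + b + c by ring, show b + a = a + b by ring]
  have h1 : ∀ a b c, G a b c = - G b a (-(a + b + c)) := by
    intro a b c
    show Psi [a + b + c, b + c, c, 0] f = - Psi [b + a + -(a + b + c), a + -(a + b + c), -(a + b + c), 0] f
    rw [hD]
    have e2 := hB c (b + c) (a + b + c) 0
    rw [show b + a + -(a + b + c) = -c by ring, show a + -(a + b + c) = -(b + c) by ring]
    rw [neg_zero] at e2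
    rw [e2, neg_neg]
  have h3 : ∀ a b c, G a b c + G b a c + G b c a = 0 := by
    intro a b c
    have e := shuffle_rel hf a 0 (b + c) c 0
    show Psi [a + b + c, b + c, c, 0] f + Psi [b + a + c, a + c, c, 0] f +
      Psi [b + c + a, c + a, a, 0] f = 0
    rw [show b + a + c = a + b + c by ring, show b + c + a = a + b + c by ring,
      show c + a = a + c by ring]
    simp only [zero_add, add_zero, ← add_assoc] at e
    exact e
  have hz : ∀ a b c, G a b c = 0 := by
    have key : ∀ a b c, G b c a = 0 := by
      intro a b c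
      set d := -(a + b + c) with hd
      have e1 := h3 a b c
      have e2 := h3 b a d
      have i1 := h1 a b c
      have i2 := h1 b a c
      rw [show -(b + a + c) = d by rw [hd]; ring] at i2
      rw [← hd] at i1
      have i3 := h2 a d b
      have i4 := h1 b d a
      rw [show -(b + d + a) = c by rw [hd]; ring] at i4
      have i5 := h2 d b c
      have i6 := h1 c b d
      rw [show -(c + b + d) = a by rw [hd]; ring] at i6
      linarith
    intro a b c
    exact key c a b
  refine hne0 (extract 3 f (m + 3) (fun w hw => (hN w hw).le) ?_ u hu)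
  intro zs hzs
  obtain ⟨z0, z1, z2, z3, rfl⟩ : ∃ a b c d, zs = [a, b, c, d] := by
    rcases zs with _ | ⟨a, _ | ⟨b, _ | ⟨c, _ | ⟨d, _ | ⟨e, zs⟩⟩⟩⟩⟩ <;> simp at hzs
    exact ⟨a, b, c, d, rfl⟩
  have e1 := hC z0 z1 z2 z3 (-z3)
  rw [← e1]
  have e2 := hz (z0 - z1) (z1 - z2) (z2 - z3)
  have e3 : Psi [z0 - z1 + (z1 - z2) + (z2 - z3), z1 - z2 + (z2 - z3), z2 - z3, 0] f = 0 := e2
  rw [show z0 + -z3 = z0 - z1 + (z1 - z2) + (z2 - z3) by ring,
    show z1 + -z3 = z1 - z2 + (z2 - z3) by ring, show z2 + -z3 = z2 - z3 by ring,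
    show z3 + -z3 = 0 by ring]
  exact e3

/-- an element of `dm` of even weight and depth at least three has depth at least four -/
theorem dm_depth_four {f : A} {N : ℕ} (hf : IsDM f) (hN : LenHom f N) (hev : Even N)
    (h3 : f ∈ D 3) : f ∈ D 4 := by
  have hLS := isLS_lead hf h3
  refine mem_D_succ h3 ?_
  apply al_ext
  intro u
  rw [H777R4.DM.co_zero]
  by_cases hu : u.count 1 = 3
  · refine parity3 (f := dpart 3 f) (N := N) hLS.mem ?_ hev ?_ u hu
    · intro w hw
      rw [co_dpart] at hw
      split_ifs at hw with h1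
      · exact hN w hw
      · exact absurd rfl hw
    · intro F hF
      refine hLS.prim N 3 F fun v => ?_
      rw [hF v]
      by_cases hv : v.length = 3
      · rw [if_pos hv]
        by_cases hs : v.sum + v.length = N
        · rw [if_pos ⟨hv, hs⟩]
        · rw [if_neg (fun h => hs h.2)]
          by_contra hne
          rw [co_dpart] at hne
          split_ifs at hne with h1
          · exact hs (by rw [← wordX_length]; exact hN _ hne)
          · exact absurd rfl hne
      · rw [if_neg hv, if_neg (fun h => hv h.1)]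
  · rw [co_dpart, if_neg hu]

end Pool.Agent.H21.BK
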