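import Pool.Graph.R_pool_sql_team_seeded_3997aac3.H159.LS.Depth

/-!
# The generating function of the words with a given number of letters `x₁`

`Psi [z_0, …, z_r] ψ = ∑ (ψ | x_0^{a_0} x_1 x_0^{a_1} ⋯ x_1 x_0^{a_r}) z_0^{a_0} ⋯ z_r^{a_r}`.
-/

set_option autoImplicit false

namespace Pool.Agent.H21.BK

open Pool.Agent.H777R4.DM Pool.Agent.H159.LS Finset

attribute [local instance 100] LieRing.ofAssociativeRing

/-- value of a word at a list of numbers -/
def val : List (Fin 2) → List ℚ → ℚ
  | [], zs => if zs.length = 1 then 1 else 0
  | i :: u, zs => if i = 1 then val u zs.tail else zs.headD 0 * val u zs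

/-- the generating function -/
noncomputable def Psi (zs : List ℚ) : A →ₗ[ℚ] ℚ := lext (fun u => val u zs)

theorem Psi_wd (zs : List ℚ) (u : List (Fin 2)) : Psi zs (wd u) = val u zs := lext_wd _ _

theorem val_one (u : List (Fin 2)) (zs : List ℚ) : val (1 :: u) zs = val u zs.tail := by
  simp [val]

theorem val_zero (u : List (Fin 2)) (zs : List ℚ) : val (0 :: u) zs = zs.headD 0 * val u zs := by
  simp [val]

theorem val_nil_list (u : List (Fin 2)) : val u [] = 0 := by
  induction u with
  | nil => simp [val]
  | cons i u ih => simp [val, ih]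

theorem val_count (u : List (Fin 2)) : ∀ zs : List ℚ, val u zs ≠ 0 → u.count 1 + 1 = zs.length := by
  induction u with
  | nil =>
    intro zs h
    simp only [val] at h
    split_ifs at h with h1
    · simpa using h1.symm
    · exact absurd rfl h
  | cons i u ih =>
    intro zs h
    rcases (show i = 0 ∨ i = 1 by fin_cases i <;> simp) with rfl | rfl
    · rw [val_zero] at h
      rw [List.count_cons_of_ne (by decide)]
      exact ih zs (right_ne_zero_of_mul h)
    · rw [val_one] at h
      have := ih _ h
      rw [List.length_tail] at this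
      rw [List.count_cons_self]
      omega

/-- the product formula -/
theorem val_append (u v : List (Fin 2)) : ∀ zs : List ℚ,
    val (u ++ v) zs = ∑ k ∈ range zs.length, val u (zs.take (k + 1)) * val v (zs.drop k) := by
  induction u with
  | nil =>
    intro zs
    rcases zs with _ | ⟨z, zs⟩
    · simp [val_nil_list]
    · rw [List.nil_append, Finset.sum_eq_single 0]
      · simp [val]
      · intro k hk hne
        rw [mem_range] at hk
        simp only [val]
        rw [if_neg, zero_mul]
        rw [List.length_take]
        omega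
      · intro h
        exact absurd (mem_range.2 (by simp)) h
  | cons i u ih =>
    intro zs
    rcases (show i = 0 ∨ i = 1 by fin_cases i <;> simp) with rfl | rfl
    · rw [List.cons_append, val_zero, ih, Finset.mul_sum]
      refine Finset.sum_congr rfl fun k hk => ?_
      rw [mem_range] at hk
      rw [val_zero]
      have : (zs.take (k + 1)).headD 0 = zs.headD 0 := by
        rcases zs with _ | ⟨z, zs⟩
        · simp at hk
        · simp
      rw [this]
      ring
    · rw [List.cons_append, val_one, ih]
      rcases zs with _ | ⟨z, zs⟩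
      · simp
      · rw [List.length_cons, Finset.sum_range_succ']
        have h0 : val (1 :: u) ((z :: zs).take (0 + 1)) * val v ((z :: zs).drop 0) = 0 := by
          rw [val_one]
          simp [val_nil_list]
        rw [h0, add_zero, List.tail_cons]
        refine Finset.sum_congr rfl fun k _ => ?_
        rw [val_one]
        simp

theorem Psi_mul (zs : List ℚ) (f g : A) :
    Psi zs (f * g) = ∑ k ∈ range zs.length, Psi (zs.take (k + 1)) f * Psi (zs.drop k) g := by
  induction f using al_induction with
  | h1 u =>
    induction g using al_induction with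
    | h1 v =>
      rw [wd_mul, Psi_wd, val_append]
      simp only [Psi_wd]
    | h2 P Q hP hQ =>
      rw [mul_add, map_add, hP, hQ, ← Finset.sum_add_distrib]
      refine Finset.sum_congr rfl fun k _ => ?_
      rw [map_add]
      ring
    | h3 c P hP =>
      rw [mul_smul_comm, map_smul, hP, smul_eq_mul, Finset.mul_sum]
      refine Finset.sum_congr rfl fun k _ => ?_
      rw [map_smul, smul_eq_mul]
      ring
  | h2 P Q hP hQ =>
    rw [add_mul, map_add, hP, hQ, ← Finset.sum_add_distrib]
    refine Finset.sum_congr rfl fun k _ => ?_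
    rw [map_add]
    ring
  | h3 c P hP =>
    rw [smul_mul_assoc, map_smul, hP, smul_eq_mul, Finset.mul_sum]
    refine Finset.sum_congr rfl fun k _ => ?_
    rw [map_smul, smul_eq_mul]
    ring

/-- expansion over the words -/
theorem Psi_expand (zs : List ℚ) (f : A) :
    Psi zs f = ∑ m ∈ f.coeff.support, co f (FreeMonoid.toList m) * val (FreeMonoid.toList m) zs := by
  conv_lhs => rw [Lead2.expand f]
  rw [map_sum]
  refine Finset.sum_congr rfl fun m _ => ?_
  rw [map_smul, Psi_wd]
  rfl

/-- if the coefficients are related, the generating functions are -/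
theorem Psi_zero_of (zs : List ℚ) (f : A) (h : ∀ u, u.count 1 + 1 = zs.length → co f u = 0) :
    Psi zs f = 0 := by
  rw [Psi_expand]
  refine Finset.sum_eq_zero fun m _ => ?_
  by_cases hv : val (FreeMonoid.toList m) zs = 0
  · rw [hv, mul_zero]
  · rw [h _ (val_count _ _ hv), zero_mul]

theorem Psi_D {r : ℕ} {f : A} (hf : f ∈ D r) (zs : List ℚ) (hz : zs.length ≤ r) : Psi zs f = 0 := by
  refine Psi_zero_of zs f fun u hu => ?_
  by_contra hne
  have := hf u hne
  omega

/-! ### extraction of the coefficients -/

/-- left quotient by `x_0^a x_1` on words -/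
noncomputable def lqW : ℕ → List (Fin 2) → A
  | _, [] => 0
  | 0, i :: u => if i = 1 then wd u else 0
  | a + 1, i :: u => if i = 1 then 0 else lqW a u

/-- left quotient by `x_0^a x_1` -/
noncomputable def lq (a : ℕ) : A →ₗ[ℚ] A := lext (lqW a)

theorem co_lqW (a : ℕ) : ∀ (w u : List (Fin 2)),
    co (lqW a w) u = if w = List.replicate a 0 ++ 1 :: u then 1 else 0 := by
  induction a with
  | zero =>
    intro w u
    rcases w with _ | ⟨i, w⟩
    · simp [lqW, H777R4.DM.co_zero]
    · rcases (show i = 0 ∨ i = 1 by fin_cases i <;> simp) with rfl | rfl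
      · simp [lqW, H777R4.DM.co_zero]
      · simp [lqW, co_wd]
  | succ a ih =>
    intro w u
    rcases w with _ | ⟨i, w⟩
    · simp [lqW, H777R4.DM.co_zero]
    · rcases (show i = 0 ∨ i = 1 by fin_cases i <;> simp) with rfl | rfl
      · simp [lqW, ih, List.replicate_succ]
      · simp [lqW, H777R4.DM.co_zero, List.replicate_succ]

theorem co_lq (a : ℕ) (f : A) (u : List (Fin 2)) :
    co (lq a f) u = co f (List.replicate a 0 ++ 1 :: u) := by
  induction f using al_induction with
  | h1 w =>
    unfold lq
    rw [lext_wd, co_lqW, co_wd]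
  | h2 P Q hP hQ => rw [map_add, H777R4.DM.co_add, H777R4.DM.co_add, hP, hQ]
  | h3 c P hP => rw [map_smul, H777R4.DM.co_smul, H777R4.DM.co_smul, hP]

theorem val_lq (u : List (Fin 2)) : ∀ (N : ℕ), u.length ≤ N → ∀ (z : ℚ) (zs : List ℚ), zs ≠ [] →
    val u (z :: zs) = ∑ a ∈ range (N + 1), z ^ a * Psi zs (lqW a u) := by
  induction u with
  | nil =>
    intro N _ z zs hz
    have : (z :: zs).length ≠ 1 := by
      simp [hz]
    simp only [val, if_neg this]
    symm
    refine Finset.sum_eq_zero fun a _ => ?_
    simp [lqW]
  | cons i u ih =>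
    intro N hN z zs hz
    rw [Finset.sum_range_succ']
    rcases (show i = 0 ∨ i = 1 by fin_cases i <;> simp) with rfl | rfl
    · obtain ⟨M, rfl⟩ : ∃ M, N = M + 1 := ⟨N - 1, by simp at hN; omega⟩
      rw [val_zero, ih M (by simpa using hN) z zs hz]
      simp only [lqW, List.headD_cons]
      rw [Finset.mul_sum]
      simp only [zero_ne_one, if_false, map_zero, mul_zero, add_zero]
      refine Finset.sum_congr rfl fun a _ => ?_
      rw [pow_succ]
      ring
    · rw [val_one]
      simp [lqW, Psi_wd]

theorem Psi_lq (f : A) (N : ℕ) (hN : ∀ u, co f u ≠ 0 → u.length ≤ N) (z : ℚ) (zs : List ℚ)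
    (hz : zs ≠ []) : Psi (z :: zs) f = ∑ a ∈ range (N + 1), z ^ a * Psi zs (lq a f) := by
  have key : ∀ a, Psi zs (lq a f) = ∑ m ∈ f.coeff.support, co f (FreeMonoid.toList m) *
      Psi zs (lqW a (FreeMonoid.toList m)) := by
    intro a
    conv_lhs => rw [Lead2.expand f]
    rw [map_sum, map_sum]
    refine Finset.sum_congr rfl fun m _ => ?_
    rw [map_smul, map_smul]
    unfold lq
    rw [lext_wd]
    rfl
  rw [Psi_expand]
  simp only [key, Finset.mul_sum]
  rw [Finset.sum_comm]
  refine Finset.sum_congr rfl fun m hm => ?_
  rw [val_lq (FreeMonoid.toList m) N (hN _ (Finsupp.mem_support_iff.1 hm)) z zs hz, Finset.mul_sum]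
  refine Finset.sum_congr rfl fun a _ => ?_
  ring

theorem val_single (u : List (Fin 2)) : ∀ (N : ℕ), u.length ≤ N → ∀ (z : ℚ),
    val u [z] = ∑ a ∈ range (N + 1), z ^ a * (if u = List.replicate a 0 then 1 else 0) := by
  induction u with
  | nil =>
    intro N _ z
    rw [Finset.sum_eq_single 0]
    · simp [val]
    · intro a _ ha
      rw [if_neg, mul_zero]
      intro h
      have := congrArg List.length h
      simp at this
      omega
    · intro h
      exact absurd (mem_range.2 (by omega)) h
  | cons i u ih =>
    intro N hN z
    rw [Finset.sum_range_succ']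
    rcases (show i = 0 ∨ i = 1 by fin_cases i <;> simp) with rfl | rfl
    · obtain ⟨M, rfl⟩ : ∃ M, N = M + 1 := ⟨N - 1, by simp at hN; omega⟩
      rw [val_zero, ih M (by simpa using hN) z, Finset.mul_sum]
      simp only [List.headD_cons, List.replicate_succ]
      simp only [List.cons.injEq, true_and, List.replicate_zero, reduceCtorEq, if_false, mul_zero,
        add_zero]
      refine Finset.sum_congr rfl fun a _ => ?_
      rw [pow_succ]
      ring
    · rw [val_one, List.tail_cons, val_nil_list]
      symm
      simp [List.replicate_succ]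

theorem Psi_single (f : A) (N : ℕ) (hN : ∀ u, co f u ≠ 0 → u.length ≤ N) (z : ℚ) :
    Psi [z] f = ∑ a ∈ range (N + 1), z ^ a * co f (List.replicate a 0) := by
  have key : ∀ a : ℕ, co f (List.replicate a 0) = ∑ m ∈ f.coeff.support, co f (FreeMonoid.toList m) *
      (if FreeMonoid.toList m = List.replicate a 0 then 1 else 0) := by
    intro a
    by_cases h : co f (List.replicate a 0) = 0
    · rw [h]
      symm
      refine Finset.sum_eq_zero fun m _ => ?_
      split_ifs with h1
      · rw [h1, h, zero_mul]
      · rw [mul_zero]
    · rw [Finset.sum_eq_single (FreeMonoid.ofList (List.replicate a 0))]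
      · simp
      · intro m _ hm
        rw [if_neg, mul_zero]
        intro h1
        exact hm (by rw [← h1]; rfl)
      · intro h1
        exact absurd (Finsupp.mem_support_iff.2 h) h1
  rw [Psi_expand]
  simp only [key, Finset.mul_sum]
  rw [Finset.sum_comm]
  refine Finset.sum_congr rfl fun m hm => ?_
  rw [val_single (FreeMonoid.toList m) N (hN _ (Finsupp.mem_support_iff.1 hm)) z, Finset.mul_sum]
  refine Finset.sum_congr rfl fun a _ => ?_
  ring

/-- a polynomial in one variable that vanishes at all numbers outside a finite set -/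
theorem poly_zero {N : ℕ} (c : ℕ → ℚ) (T : Set ℚ) (hT : T.Finite)
    (h : ∀ z ∉ T, ∑ a ∈ range (N + 1), z ^ a * c a = 0) : ∀ a ≤ N, c a = 0 := by
  have h1 : (∑ a ∈ range (N + 1), Polynomial.C (c a) * Polynomial.X ^ a : Polynomial ℚ) = 0 := by
    refine Polynomial.eq_zero_of_infinite_isRoot _ ?_
    refine Set.Infinite.mono ?_ hT.infinite_compl
    intro z hz
    rw [Set.mem_ofPred_eq, Polynomial.IsRoot.def, Polynomial.eval_finsetSum]
    rw [← h z hz]
    refine Finset.sum_congr rfl fun a _ => ?_
    simp
    ring
  intro a ha
  have h2 := congrArg (fun p => p.coeff a) h1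
  simp only [Polynomial.finsetSum_coeff, Polynomial.coeff_C_mul_X_pow, Polynomial.coeff_zero] at h2
  rw [Finset.sum_ite_eq, if_pos (mem_range.2 (by omega))] at h2
  exact h2

/-- **Extraction.** If the generating function vanishes at all points outside finite sets (which may
depend on the later coordinates), then the coefficients vanish. -/
theorem extract (r : ℕ) : ∀ (f : A) (N : ℕ), (∀ u, co f u ≠ 0 → u.length ≤ N) →
    (∀ zs : List ℚ, zs.length = r + 1 → Psi zs f = 0) → ∀ u, u.count 1 = r → co f u = 0 := by
  induction r with
  | zero =>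
    intro f N hN h u hu
    by_cases hl : u.length ≤ N
    · have h1 := poly_zero (N := N) (fun a => co f (List.replicate a 0)) ∅ Set.finite_empty
        (fun z _ => by rw [← Psi_single f N hN z]; exact h [z] rfl) u.length hl
      have h2 : u = List.replicate u.length 0 := by
        refine List.eq_replicate_iff.2 ⟨rfl, fun b hb => ?_⟩
        rcases (show b = 0 ∨ b = 1 by fin_cases b <;> simp) with rfl | rfl
        · rfl
        · exact absurd hb (List.count_eq_zero.1 hu)
      rw [h2]
      exact h1
    · by_contra hne
      exact hl (hN u hne)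
  | succ r ih =>
    intro f N hN h u hu
    -- the first gap
    obtain ⟨a, v, rfl⟩ : ∃ a v, u = List.replicate a 0 ++ 1 :: v := by
      clear h hN ih
      induction u with
      | nil => simp at hu
      | cons i u ih2 =>
        rcases (show i = 0 ∨ i = 1 by fin_cases i <;> simp) with rfl | rfl
        · rw [List.count_cons_of_ne (by decide)] at hu
          obtain ⟨a, v, rfl⟩ := ih2 hu
          exact ⟨a + 1, v, by simp [List.replicate_succ]⟩
        · exact ⟨0, u, rfl⟩
    rw [← co_lq]
    have hN' : ∀ u, co (lq a f) u ≠ 0 → u.length ≤ N := by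
      intro w hw
      rw [co_lq] at hw
      have := hN _ hw
      simp at this
      omega
    by_cases ha : a ≤ N
    · refine ih (lq a f) N hN' (fun zs hz => ?_) v ?_
      · have h1 := poly_zero (N := N) (fun a => Psi zs (lq a f)) ∅ Set.finite_empty
          (fun z _ => by
            rw [← Psi_lq f N hN z zs (by rintro rfl; simp at hz)]
            exact h (z :: zs) (by simp [hz])) a ha
        exact h1
      · rw [List.count_append, List.count_cons_self] at hu
        simp [List.count_replicate] at hu
        exact hu
    · by_contra hne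
      rw [co_lq] at hne
      have := hN _ hne
      simp at this
      omega

end Pool.Agent.H21.BK
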