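import Pool.Agent.H21.BK.Two

/-!
# Operators of depth four
-/

set_option autoImplicit false

namespace Pool.Agent.H21.BK

open Pool.Agent.H777R4.DM Pool.Agent.H159.LS Pool.Agent.H21.Ech Finset

attribute [local instance 100] LieRing.ofAssociativeRing

/-- the dimension of the space of cusp forms of weight `k` for `SL_2(ℤ)` -/
def dimS (k : ℕ) : ℕ := if k % 2 = 1 then 0 else if k % 12 = 2 then k / 12 - 1 else k / 12

theorem mu_eq (h : ℕ) : mu h = dimS (2 * h + 4) + 1 := by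
  unfold mu dimS
  split_ifs <;> omega

/-- an operator raises the depth by at least `r` -/
def Raises (r : ℕ) (T : Module.End ℚ A) : Prop := ∀ t, ∀ f ∈ D t, T f ∈ D (t + r)

theorem raises_s {r : ℕ} {f : A} (hf : f ∈ D r) : Raises r (s f) := by
  intro t h hh
  rw [_root_.H851R3.DSH.s_apply]
  refine (D (t + r)).add_mem ?_ ?_
  · exact Cnt.mul (p := fun n => r ≤ n) (q := fun n => t ≤ n) (s := fun n => t + r ≤ n)
      (fun a b ha hb => by omega) hf hh
  · exact Cnt.der (p := fun n => r ≤ n) (q := fun n => t ≤ n) (s := fun n => t + r ≤ n)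
      (fun a b ha hb => by omega) hf hh

theorem Raises.smul {r : ℕ} {T : Module.End ℚ A} (hT : Raises r T) (c : ℚ) : Raises r (c • T) :=
  fun t f hf => (D _).smul_mem c (hT t f hf)

theorem Raises.mul {r t : ℕ} {T U : Module.End ℚ A} (hT : Raises r T) (hU : Raises t U) :
    Raises (r + t) (T * U) := by
  intro q f hf
  have := hT _ _ (hU q f hf)
  rwa [show q + t + r = q + (r + t) by ring] at this

theorem s_sum {ι : Type} (S : Finset ι) (f : ι → A) : s (∑ i ∈ S, f i) = ∑ i ∈ S, s (f i) := by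
  classical
  induction S using Finset.induction_on with
  | empty => simp [_root_.H851R3.DSH.s_zero]
  | insert a S ha ih => rw [Finset.sum_insert ha, Finset.sum_insert ha, _root_.H851R3.DSH.s_add, ih]

/-- The hypotheses on the elements `σ a`: they lie in a subspace `g` of `dm` closed under the Ihara
bracket, `σ a` has weight `a` and depth one. -/
structure Gens (g : Submodule ℚ A) (σ : ℕ → A) : Prop where
  dm : ∀ ψ ∈ g, IsDM ψ
  bracket : ∀ ψ ∈ g, ∀ φ ∈ g, ihara ψ φ ∈ g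
  mem : ∀ a, Odd a → 3 ≤ a → σ a ∈ g
  weight : ∀ a, Odd a → 3 ≤ a → LenHom (σ a) a
  depth_one : ∀ a, Odd a → 3 ≤ a → co (σ a) (List.replicate (a - 1) 0 ++ [1]) ≠ 0

/-- the lower products -/
def Low (σ : ℕ → A) (a b : ℕ) : Set (Module.End ℚ A) :=
  {X | ∃ a' b', Odd a' ∧ 3 ≤ a' ∧ Odd b' ∧ 3 ≤ b' ∧ a' + b' = a + b ∧ a' < a ∧
    X = s (σ a') * s (σ b')}

theorem exists_T {g : Submodule ℚ A} {σ : ℕ → A} (G : Gens g σ) {a b : ℕ} (ha : Odd a)
    (hb : Odd b) (hb3 : 3 ≤ b) (hp : b ≤ 2 * dimS (a + b) + 1) :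
    ∃ T : Module.End ℚ A, Raises 4 T ∧ T - s (σ a) * s (σ b) ∈ Submodule.span ℚ (Low σ a b) := by
  obtain ⟨i₀, hi₀⟩ := ha
  obtain ⟨j₀, hj₀⟩ := hb
  have hab : 12 ≤ a + b := by
    by_contra hcon
    have : dimS (a + b) = 0 := by
      unfold dimS
      split_ifs <;> omega
    omega
  set n := i₀ + j₀ with hn
  obtain ⟨h, hh⟩ : ∃ h, n = h + 1 := ⟨n - 1, by omega⟩
  have hmu : mu h = dimS (a + b) + 1 := by
    rw [mu_eq]
    congr 2
    omega
  have hj1 : 1 ≤ j₀ := by omega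
  have hjmu : j₀ < mu h := by omega
  have hmun : 2 * mu h ≤ n := by
    have : mu h = h / 2 + 1 - (h + 1) / 3 := rfl
    omega
  obtain ⟨c, hc1, hc2, hc3⟩ := exists_period h (fun j => if j = j₀ then 1 else 0)
  have hanti : ∀ j ≤ n, c (n - j) = - c j := by
    intro j hj
    rw [hh] at hj ⊢
    exact hc2 j hj
  have hrel : ∀ x : ℚ, x ≠ 0 → x ≠ -1 → ∑ j ∈ range (n + 1), c j * ((x + 1) ^ (2 * (n - j)) -
        (x + 1) ^ (2 * (n - j)) * x ^ (2 * j) - x ^ (2 * (n - j))) = 0 := by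
    intro x h0 h1
    rw [hh]
    exact hc3 x h0 h1
  have hc0 : c 0 = 0 := by
    rw [hc1 0 (by omega), if_neg (by omega)]
  set f : ℕ → A := fun j => σ (2 * j + 1) with hf
  set κ : ℕ → ℚ := fun j => co (f j) (List.replicate (2 * j) 0 ++ [1]) with hκ
  have hodd : ∀ j, Odd (2 * j + 1) := fun j => ⟨j, rfl⟩
  have hIco : ∀ j ∈ Finset.Ico 1 n, 3 ≤ 2 * j + 1 := by
    intro j hj
    rw [Finset.mem_Ico] at hj
    omega
  have hmem' : ∀ j ∈ Finset.Ico 1 n, n - j ∈ Finset.Ico 1 n := by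
    intro j hj
    rw [Finset.mem_Ico] at hj ⊢
    omega
  have hfg : ∀ j ∈ Finset.Ico 1 n, f j ∈ g := fun j hj => G.mem _ (hodd j) (hIco j hj)
  have hfdm : ∀ j ∈ Finset.Ico 1 n, IsDM (f j) := fun j hj => G.dm _ (hfg j hj)
  have hfN : ∀ j ∈ Finset.Ico 1 n, LenHom (f j) (2 * j + 1) :=
    fun j hj => G.weight _ (hodd j) (hIco j hj)
  have hfD : ∀ j ∈ Finset.Ico 1 n, f j ∈ D 1 := fun j hj u hu => (small_dm (hfdm j hj) u hu).2
  have hκ0 : ∀ j ∈ Finset.Ico 1 n, κ j ≠ 0 := by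
    intro j hj
    have := G.depth_one _ (hodd j) (hIco j hj)
    simpa using this
  set d : ℕ → ℚ := fun j => c j / (κ (n - j) * κ j) with hd
  set ρ : A := ∑ j ∈ Finset.Ico 1 n, d j • ihara (f (n - j)) (f j) with hρ
  have hρg : ρ ∈ g := g.sum_mem fun j hj => g.smul_mem _ (G.bracket _ (hfg _ (hmem' j hj)) _ (hfg j hj))
  have hρN : LenHom ρ (2 * n + 2) := by
    refine lenHom_sum _ _ fun j hj => lenHom_smul _ ?_
    have := lenHom_ihara (hfN _ (hmem' j hj)) (hfN j hj)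
    rw [Finset.mem_Ico] at hj
    rwa [show 2 * (n - j) + 1 + (2 * j + 1) = 2 * n + 2 by omega] at this
  have hρ2 : ρ ∈ D 2 := (D 2).sum_mem fun j hj => (D 2).smul_mem _
    (ihara_mem_D (hfD _ (hmem' j hj)) (hfD j hj))
  have hρ3 : ρ ∈ D 3 := by
    have hz : ∀ u, u.count 1 = 2 → co ρ u = 0 := by
      refine extract 2 ρ (2 * n + 2) (fun u hu => (hρN u hu).le) ?_
      intro zs hzs
      obtain ⟨z0, z1, z2, rfl⟩ : ∃ a b c, zs = [a, b, c] := by
        rcases zs with _ | ⟨a, _ | ⟨b, _ | ⟨c, _ | ⟨d, zs⟩⟩⟩⟩ <;> simp at hzs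
        exact ⟨a, b, c, rfl⟩
      exact depth_two_zero hanti hc0 hrel f (fun j hj => (hfdm j hj).mem) hfD hfN z0 z1 z2 κ
        (fun j hj => ⟨rfl, hκ0 j hj⟩)
    intro u hu
    have h2 := hρ2 u hu
    rcases Nat.lt_or_ge 2 (u.count 1) with h3 | h3
    · exact h3
    · exact absurd (hz u (by omega)) hu
  have hρ4 : ρ ∈ D 4 := dm_depth_four (G.dm _ hρg) hρN ⟨n + 1, by ring⟩ hρ3
  -- the operator
  set T₀ : Module.End ℚ A := ∑ j ∈ Finset.Ico 1 n, d j • (s (f (n - j)) * s (f j)) with hT₀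
  have hswap : ∑ j ∈ Finset.Ico 1 n, d j • (s (f j) * s (f (n - j))) = - T₀ := by
    rw [hT₀, ← Finset.sum_neg_distrib]
    refine Finset.sum_nbij' (fun j => n - j) (fun j => n - j) hmem' hmem' ?_ ?_ ?_
    · intro j hj
      rw [Finset.mem_Ico] at hj
      show n - (n - j) = j
      omega
    · intro j hj
      rw [Finset.mem_Ico] at hj
      show n - (n - j) = j
      omega
    · intro j hj
      rw [Finset.mem_Ico] at hj
      have e1 : n - (n - j) = j := by omega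
      show d j • (s (f j) * s (f (n - j))) = -(d (n - j) • (s (f (n - (n - j))) * s (f (n - j))))
      have e5 : d (n - j) = - d j := by
        show c (n - j) / (κ (n - (n - j)) * κ (n - j)) = -(c j / (κ (n - j) * κ j))
        rw [e1, hanti j (by omega), mul_comm (κ j) (κ (n - j))]
        ring
      rw [e1, e5]
      refine LinearMap.ext fun y => ?_
      simp only [LinearMap.smul_apply, LinearMap.neg_apply, neg_smul, neg_neg]
  have hsρ : s ρ = (2 : ℚ) • T₀ := by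
    rw [hρ, s_sum]
    have e1 : ∀ j ∈ Finset.Ico 1 n, s (d j • ihara (f (n - j)) (f j)) =
        d j • (s (f (n - j)) * s (f j)) - d j • (s (f j) * s (f (n - j))) := by
      intro j _
      rw [_root_.H851R3.DSH.s_smul, ← _root_.H851R3.DSH.s_comm, smul_sub]
    rw [Finset.sum_congr rfl e1, Finset.sum_sub_distrib, hswap, ← hT₀, two_smul, sub_neg_eq_add]
  have hT₀r : Raises 4 T₀ := by
    have h1 := (raises_s hρ4).smul (1 / 2)
    rw [hsρ, smul_smul] at h1
    norm_num at h1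
    exact h1
  have hjI : j₀ ∈ Finset.Ico 1 n := Finset.mem_Ico.2 ⟨hj1, by omega⟩
  refine ⟨(κ (n - j₀) * κ j₀) • T₀, hT₀r.smul _, ?_⟩
  have e2 : (κ (n - j₀) * κ j₀) • (d j₀ • (s (f (n - j₀)) * s (f j₀))) = s (σ a) * s (σ b) := by
    rw [smul_smul]
    have k1 := hκ0 _ (hmem' j₀ hjI)
    have k2 := hκ0 _ hjI
    have e3 : κ (n - j₀) * κ j₀ * d j₀ = 1 := by
      show κ (n - j₀) * κ j₀ * (c j₀ / (κ (n - j₀) * κ j₀)) = 1
      rw [hc1 j₀ hjmu, if_pos rfl]
      field_simp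
    rw [e3, one_smul]
    show s (σ (2 * (n - j₀) + 1)) * s (σ (2 * j₀ + 1)) = _
    rw [show 2 * (n - j₀) + 1 = a by omega, show 2 * j₀ + 1 = b by omega]
  rw [hT₀, ← Finset.add_sum_erase _ _ hjI, smul_add, e2, add_sub_cancel_left]
  refine Submodule.smul_mem _ _ (Submodule.sum_mem _ fun j hj => ?_)
  obtain ⟨hne, hj⟩ := Finset.mem_erase.1 hj
  rcases Nat.lt_or_ge j (mu h) with hlt | hge
  · have : d j = 0 := by
      show c j / (κ (n - j) * κ j) = 0
      rw [hc1 j hlt, if_neg hne, zero_div]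
    rw [this, zero_smul]
    exact Submodule.zero_mem _
  · refine Submodule.smul_mem _ _ (Submodule.subset_span ?_)
    refine ⟨2 * (n - j) + 1, 2 * j + 1, hodd _, hIco _ (hmem' j hj), hodd _, hIco _ hj, ?_, ?_, rfl⟩
    · rw [Finset.mem_Ico] at hj
      omega
    · rw [Finset.mem_Ico] at hj
      omega

end Pool.Agent.H21.BK
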