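import Pool.Agent.H21.BK.Psi

/-!
# Symmetries of the generating functions of Lie elements
-/

set_option autoImplicit false

namespace Pool.Agent.H21.BK

open Pool.Agent.H777R4.DM Pool.Agent.H159.LS Finset Kronecker

attribute [local instance 100] LieRing.ofAssociativeRing

/-! ### reversal -/

theorem val_snoc_one (u : List (Fin 2)) : ∀ (zs : List ℚ) (z : ℚ),
    val (u ++ [1]) (zs ++ [z]) = val u zs := by
  induction u with
  | nil =>
    intro zs z
    rw [List.nil_append, val_one]
    rcases zs with _ | ⟨w, zs⟩ <;> simp [val]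
  | cons i u ih =>
    intro zs z
    rcases (show i = 0 ∨ i = 1 by fin_cases i <;> simp) with rfl | rfl
    · rw [List.cons_append, val_zero, val_zero, ih]
      rcases zs with _ | ⟨w, zs⟩
      · simp [val_nil_list]
      · simp
    · rw [List.cons_append, val_one, val_one]
      rcases zs with _ | ⟨w, zs⟩
      · simp [val_nil_list]
      · simpa using ih zs z

theorem val_snoc_zero (u : List (Fin 2)) : ∀ (zs : List ℚ) (z : ℚ),
    val (u ++ [0]) (zs ++ [z]) = z * val u (zs ++ [z]) := by
  induction u with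
  | nil =>
    intro zs z
    rw [List.nil_append, val_zero]
    rcases zs with _ | ⟨w, zs⟩ <;> simp [val]
  | cons i u ih =>
    intro zs z
    rcases (show i = 0 ∨ i = 1 by fin_cases i <;> simp) with rfl | rfl
    · rw [List.cons_append, val_zero, val_zero, ih]
      ring
    · rw [List.cons_append, val_one, val_one]
      rcases zs with _ | ⟨w, zs⟩
      · simp [val_nil_list]
      · simpa using ih zs z

theorem val_reverse (u : List (Fin 2)) : ∀ zs : List ℚ, val u.reverse zs.reverse = val u zs := by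
  induction u with
  | nil => intro zs; simp [val]
  | cons i u ih =>
    intro zs
    rcases zs with _ | ⟨z, zs⟩
    · rw [List.reverse_nil, val_nil_list, val_nil_list]
    · rcases (show i = 0 ∨ i = 1 by fin_cases i <;> simp) with rfl | rfl
      · rw [List.reverse_cons, List.reverse_cons, val_snoc_zero, val_zero, List.headD_cons]
        congr 1
        have := ih (z :: zs)
        rwa [List.reverse_cons] at this
      · rw [List.reverse_cons, List.reverse_cons, val_snoc_one, val_one, List.tail_cons]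
        exact ih zs

/-- reversal of words -/
noncomputable def rv : A →ₗ[ℚ] A := lext (fun u => wd u.reverse)

theorem co_rv (f : A) (u : List (Fin 2)) : co (rv f) u = co f u.reverse := by
  induction f using al_induction with
  | h1 w =>
    unfold rv
    rw [lext_wd, co_wd, co_wd]
    by_cases h : w = u.reverse
    · rw [if_pos h, if_pos (by rw [h, List.reverse_reverse])]
    · rw [if_neg h, if_neg]
      intro h1
      exact h (by rw [← h1, List.reverse_reverse])
  | h2 P Q hP hQ => rw [map_add, H777R4.DM.co_add, H777R4.DM.co_add, hP, hQ]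
  | h3 c P hP => rw [map_smul, H777R4.DM.co_smul, H777R4.DM.co_smul, hP]

theorem Psi_rv (zs : List ℚ) (f : A) : Psi zs.reverse (rv f) = Psi zs f := by
  induction f using al_induction with
  | h1 w =>
    unfold rv
    rw [lext_wd, Psi_wd, Psi_wd, val_reverse]
  | h2 P Q hP hQ => rw [map_add, map_add, map_add, hP, hQ]
  | h3 c P hP => rw [map_smul, map_smul, map_smul, hP]

theorem Psi_reverse {f : A} {N : ℕ} (hf : f ∈ LieX) (hN : LenHom f N) (zs : List ℚ) :
    Psi zs.reverse f = (-1) ^ (N + 1) * Psi zs f := by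
  have h1 : rv f = ((-1 : ℚ) ^ (N + 1)) • f := by
    apply al_ext
    intro u
    rw [co_rv, H777R4.DM.co_smul, taskTwoB f hf u]
    by_cases h : co f u = 0
    · rw [h, mul_zero, mul_zero]
    · rw [hN u h]
  have h2 := Psi_rv zs f
  rw [h1, map_smul, smul_eq_mul] at h2
  rw [← h2, ← mul_assoc, ← pow_add, show N + 1 + (N + 1) = 2 * (N + 1) by ring, pow_mul]
  simp

/-! ### negation -/

theorem val_neg (u : List (Fin 2)) : ∀ zs : List ℚ,
    val u (zs.map fun z => -z) = (-1) ^ (u.count 0) * val u zs := by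
  induction u with
  | nil => intro zs; simp [val]
  | cons i u ih =>
    intro zs
    rcases (show i = 0 ∨ i = 1 by fin_cases i <;> simp) with rfl | rfl
    · rw [val_zero, val_zero, ih, List.count_cons_self, pow_succ]
      have : (zs.map fun z => -z).headD 0 = - zs.headD 0 := by
        rcases zs with _ | ⟨z, zs⟩ <;> simp
      rw [this]
      ring
    · rw [val_one, val_one, List.count_cons_of_ne (by decide), ← ih]
      rcases zs with _ | ⟨z, zs⟩ <;> simp

theorem count_add (u : List (Fin 2)) : u.count 0 + u.count 1 = u.length := by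
  induction u with
  | nil => simp
  | cons i u ih =>
    rcases (show i = 0 ∨ i = 1 by fin_cases i <;> simp) with rfl | rfl
    · rw [List.count_cons_self, List.count_cons_of_ne (by decide), List.length_cons]
      omega
    · rw [List.count_cons_self, List.count_cons_of_ne (by decide), List.length_cons]
      omega

theorem Psi_neg {f : A} {N m : ℕ} (hN : LenHom f N) (zs : List ℚ) (hm : m + zs.length = N + 1) :
    Psi (zs.map fun z => -z) f = (-1) ^ m * Psi zs f := by
  rw [Psi_expand, Psi_expand, Finset.mul_sum]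
  refine Finset.sum_congr rfl fun w hw => ?_
  rw [val_neg]
  by_cases h : val (FreeMonoid.toList w) zs = 0
  · rw [h]; ring
  · have h1 := val_count _ _ h
    have h2 := hN _ (Finsupp.mem_support_iff.1 hw)
    have h3 := count_add (FreeMonoid.toList w)
    have h4 : (FreeMonoid.toList w).count 0 = m := by
      have h2' : (FreeMonoid.toList w).length = N := h2
      omega
    rw [h4]
    ring

/-! ### translation -/

theorem Psi_one_letter (zs : List ℚ) : Psi zs (x 0) = if zs.length = 1 then zs.headD 0 else 0 := by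
  show Psi zs (wd [0]) = _
  rw [Psi_wd, val_zero]
  simp only [val]
  split_ifs <;> simp

theorem Psi_x1 (zs : List ℚ) : Psi zs (x 1) = if zs.length = 2 then 1 else 0 := by
  show Psi zs (wd [1]) = _
  rw [Psi_wd, val_one]
  simp only [val, List.length_tail]
  by_cases h : zs.length = 2
  · rw [if_pos h, if_pos (by omega)]
  · rw [if_neg h, if_neg (by omega)]

/-- translation invariance up to a constant in depth zero -/
def Tr (t : ℚ) (f : A) : Prop := ∃ c : ℚ, ∀ zs : List ℚ, zs ≠ [] →
  Psi (zs.map fun z => z + t) f = Psi zs f + (if zs.length = 1 then c else 0)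

theorem Tr_mul {t : ℚ} {f g : A} {c c' : ℚ}
    (hf : ∀ zs : List ℚ, zs ≠ [] → Psi (zs.map fun z => z + t) f =
      Psi zs f + (if zs.length = 1 then c else 0))
    (hg : ∀ zs : List ℚ, zs ≠ [] → Psi (zs.map fun z => z + t) g =
      Psi zs g + (if zs.length = 1 then c' else 0)) (zs : List ℚ) (hz : zs ≠ []) :
    Psi (zs.map fun z => z + t) (f * g) = Psi zs (f * g) + c * Psi zs g + c' * Psi zs f +
      (if zs.length = 1 then c * c' else 0) := by
  have hpos : 0 < zs.length := List.length_pos_iff.2 hz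
  rw [Psi_mul, Psi_mul, List.length_map]
  have h1 : ∀ k ∈ range zs.length,
      Psi ((zs.map fun z => z + t).take (k + 1)) f * Psi ((zs.map fun z => z + t).drop k) g =
      Psi (zs.take (k + 1)) f * Psi (zs.drop k) g + (if k = 0 then c * Psi zs g else 0) +
      (if k = zs.length - 1 then c' * Psi zs f else 0) +
      (if k = 0 then (if k = zs.length - 1 then c * c' else 0) else 0) := by
    intro k hk
    rw [mem_range] at hk
    rw [← List.map_take, ← List.map_drop, hf, hg]
    · have e1 : (zs.take (k + 1)).length = 1 ↔ k = 0 := by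
        rw [List.length_take]; omega
      have e2 : (zs.drop k).length = 1 ↔ k = zs.length - 1 := by
        rw [List.length_drop]; omega
      simp only [e1, e2]
      by_cases h0 : k = 0
      · subst h0
        by_cases h2 : 0 = zs.length - 1
        · have h3 : zs.take (0 + 1) = zs := List.take_of_length_le (by omega)
          simp only [if_pos h2, if_true, h3, List.drop_zero]
          ring
        · simp only [if_neg h2, if_true, List.drop_zero]
          ring
      · by_cases h2 : k = zs.length - 1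
        · have h3 : zs.take (k + 1) = zs := List.take_of_length_le (by omega)
          simp only [if_pos h2, if_neg h0, h3]
          ring
        · simp only [if_neg h2, if_neg h0]
          ring
    · intro h; have := congrArg List.length h; rw [List.length_drop, List.length_nil] at this; omega
    · intro h; have := congrArg List.length h; rw [List.length_take, List.length_nil] at this; omega
  rw [Finset.sum_congr rfl h1, Finset.sum_add_distrib, Finset.sum_add_distrib,
    Finset.sum_add_distrib, Finset.sum_ite_eq', Finset.sum_ite_eq', Finset.sum_ite_eq',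
    if_pos (mem_range.2 hpos), if_pos (mem_range.2 (by omega)), if_pos (mem_range.2 hpos)]
  have e3 : (0 = zs.length - 1) ↔ zs.length = 1 := by omega
  simp only [e3]

theorem lie_induction {p : A → Prop} (h0 : p 0) (hadd : ∀ f g, p f → p g → p (f + g))
    (hsmul : ∀ (c : ℚ) f, p f → p (c • f)) (hx : ∀ i, p (x i))
    (hlie : ∀ f g, p f → p g → p (f * g - g * f)) {f : A} (hf : f ∈ LieX) : p f := by
  let K : LieSubalgebra ℚ A :=
    { carrier := {f | p f}
      add_mem' := fun {f g} hf hg => hadd f g hf hg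
      zero_mem' := h0
      smul_mem' := fun c f hf => hsmul c f hf
      lie_mem' := fun {f g} hf hg => by
        show p ⁅f, g⁆
        rw [LieRing.of_associative_ring_bracket]
        exact hlie f g hf hg }
  have key : LieX ≤ K := by
    unfold LieX
    rw [LieSubalgebra.lieSpan_le]
    rintro y (rfl | rfl)
    · exact hx 0
    · exact hx 1
  exact key hf

theorem Tr_lie (t : ℚ) {f : A} (hf : f ∈ LieX) : Tr t f := by
  refine lie_induction ?_ ?_ ?_ ?_ ?_ hf
  · exact ⟨0, fun zs hz => by simp⟩
  · rintro f g ⟨c, hc⟩ ⟨c', hc'⟩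
    refine ⟨c + c', fun zs hz => ?_⟩
    rw [map_add, map_add, hc zs hz, hc' zs hz]
    split_ifs <;> ring
  · rintro r f ⟨c, hc⟩
    refine ⟨r * c, fun zs hz => ?_⟩
    rw [map_smul, map_smul, hc zs hz, smul_eq_mul, smul_eq_mul]
    split_ifs <;> ring
  · intro i
    rcases (show i = 0 ∨ i = 1 by fin_cases i <;> simp) with rfl | rfl
    · refine ⟨t, fun zs hz => ?_⟩
      rw [Psi_one_letter, Psi_one_letter, List.length_map]
      split_ifs with h
      · rcases zs with _ | ⟨z, zs⟩
        · exact absurd rfl hz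
        · simp
      · ring
    · refine ⟨0, fun zs hz => ?_⟩
      rw [Psi_x1, Psi_x1, List.length_map]
      simp
  · rintro f g ⟨c, hc⟩ ⟨c', hc'⟩
    refine ⟨0, fun zs hz => ?_⟩
    rw [map_sub, map_sub, Tr_mul hc hc' zs hz, Tr_mul hc' hc zs hz]
    split_ifs <;> ring

theorem Psi_translate {f : A} (hf : f ∈ LieX) (t : ℚ) (zs : List ℚ) (hz : 2 ≤ zs.length) :
    Psi (zs.map fun z => z + t) f = Psi zs f := by
  obtain ⟨c, hc⟩ := Tr_lie t hf
  rw [hc zs (by rintro rfl; simp at hz), if_neg (by omega), add_zero]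

/-! ### a shuffle relation -/

/-- the algebra homomorphism with given values at the letters -/
noncomputable def homR {R : Type} [Ring R] [Algebra ℚ R] (a : Fin 2 → R) : A →ₐ[ℚ] R :=
  MonoidAlgebra.lift ℚ R (FreeMonoid (Fin 2)) (FreeMonoid.lift a)

theorem homR_x {R : Type} [Ring R] [Algebra ℚ R] (a : Fin 2 → R) (i : Fin 2) :
    homR a (x i) = a i := by
  simp [homR, x, wd]

theorem homR_nil {R : Type} [Ring R] [Algebra ℚ R] (a : Fin 2 → R) : homR a (wd []) = 1 := by
  simp [homR, wd]

theorem homR_cons {R : Type} [Ring R] [Algebra ℚ R] (a : Fin 2 → R) (i : Fin 2)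
    (u : List (Fin 2)) : homR a (wd (i :: u)) = a i * homR a (wd u) := by
  have : (wd (i :: u) : A) = x i * wd u := by
    show wd (i :: u) = wd [i] * wd u
    rw [wd_mul]
    rfl
  rw [this, map_mul, homR_x]

theorem lie_kron {m n : Type} [Fintype m] [Fintype n] [DecidableEq m] [DecidableEq n]
    (a : Fin 2 → Matrix m m ℚ) (b : Fin 2 → Matrix n n ℚ) {f : A} (hf : f ∈ LieX) :
    homR (fun i => a i ⊗ₖ (1 : Matrix n n ℚ) + (1 : Matrix m m ℚ) ⊗ₖ b i) f =
      homR a f ⊗ₖ (1 : Matrix n n ℚ) + (1 : Matrix m m ℚ) ⊗ₖ homR b f := by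
  refine lie_induction (p := fun f => homR (fun i => a i ⊗ₖ (1 : Matrix n n ℚ) +
    (1 : Matrix m m ℚ) ⊗ₖ b i) f = homR a f ⊗ₖ (1 : Matrix n n ℚ) +
    (1 : Matrix m m ℚ) ⊗ₖ homR b f) ?_ ?_ ?_ ?_ ?_ hf
  · simp
  · intro f g hf hg
    rw [map_add, map_add, map_add, hf, hg, Matrix.add_kronecker, Matrix.kronecker_add]
    abel
  · intro r f hf
    rw [map_smul, map_smul, map_smul, hf, Matrix.smul_kronecker, Matrix.kronecker_smul, smul_add]
  · intro i
    show homR _ (x i) = _
    rw [homR_x, homR_x, homR_x]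
  · intro f g hf hg
    rw [map_sub, map_mul, map_mul, hf, hg, map_sub, map_mul,
      map_mul, map_sub, map_mul, map_mul]
    simp only [mul_add, add_mul, ← Matrix.mul_kronecker_mul, mul_one, one_mul, sub_eq_add_neg,
      Matrix.add_kronecker, Matrix.kronecker_add]
    have e1 : ∀ M : Matrix m m ℚ, (-M) ⊗ₖ (1 : Matrix n n ℚ) = -(M ⊗ₖ 1) := by
      intro M
      ext p q
      simp [Matrix.kroneckerMap_apply]
    have e2 : ∀ M : Matrix n n ℚ, (1 : Matrix m m ℚ) ⊗ₖ (-M) = -(1 ⊗ₖ M) := by
      intro M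
      ext p q
      simp [Matrix.kroneckerMap_apply]
    rw [e1, e2]
    abel

/-- the shuffle relation for one letter `x₁` against two -/
theorem shuffle_rel {f : A} (hf : f ∈ LieX) (s0 s1 t0 t1 t2 : ℚ) :
    Psi [s0 + t0, s1 + t0, s1 + t1, s1 + t2] f + Psi [s0 + t0, s0 + t1, s1 + t1, s1 + t2] f +
      Psi [s0 + t0, s0 + t1, s0 + t2, s1 + t2] f = 0 := by
  set a : Fin 2 → Matrix (Fin 2) (Fin 2) ℚ := ![!![s0, 0; 0, s1], !![0, 1; 0, 0]] with ha
  set b : Fin 2 → Matrix (Fin 3) (Fin 3) ℚ := ![!![t0, 0, 0; 0, t1, 0; 0, 0, t2],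
    !![0, 1, 0; 0, 0, 1; 0, 0, 0]] with hb
  set c : Fin 2 → Matrix (Fin 2 × Fin 3) (Fin 2 × Fin 3) ℚ :=
    fun i => a i ⊗ₖ (1 : Matrix (Fin 3) (Fin 3) ℚ) + (1 : Matrix (Fin 2) (Fin 2) ℚ) ⊗ₖ b i with hc
  have m0 : ∀ (M : Matrix (Fin 2 × Fin 3) (Fin 2 × Fin 3) ℚ) (i : Fin 2) (j : Fin 3)
      (q : Fin 2 × Fin 3), (c 0 * M) (i, j) q = (![s0, s1] i + ![t0, t1, t2] j) * M (i, j) q := by
    intro M i j q
    fin_cases i <;> fin_cases j <;>
    simp [hc, ha, hb, Matrix.mul_apply, Fintype.sum_prod_type, Fin.sum_univ_succ,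
          Matrix.one_apply, Matrix.kroneckerMap_apply]
  have m1 : ∀ (M : Matrix (Fin 2 × Fin 3) (Fin 2 × Fin 3) ℚ) (q : Fin 2 × Fin 3),
      (c 1 * M) (1, 2) q = 0 ∧ (c 1 * M) (0, 2) q = M (1, 2) q ∧ (c 1 * M) (1, 1) q = M (1, 2) q ∧
      (c 1 * M) (0, 1) q = M (1, 1) q + M (0, 2) q ∧ (c 1 * M) (1, 0) q = M (1, 1) q ∧
      (c 1 * M) (0, 0) q = M (1, 0) q + M (0, 1) q := by
    intro M q
    refine ⟨?_, ?_, ?_, ?_, ?_, ?_⟩ <;>
    simp [hc, ha, hb, Matrix.mul_apply, Fintype.sum_prod_type, Fin.sum_univ_succ,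
          Matrix.one_apply, Matrix.kroneckerMap_apply, add_comm]
  have hw : ∀ u : List (Fin 2),
      homR c (wd u) (1, 2) (1, 2) = val u [s1 + t2] ∧
      homR c (wd u) (0, 2) (1, 2) = val u [s0 + t2, s1 + t2] ∧
      homR c (wd u) (1, 1) (1, 2) = val u [s1 + t1, s1 + t2] ∧
      homR c (wd u) (0, 1) (1, 2) = val u [s0 + t1, s1 + t1, s1 + t2] +
        val u [s0 + t1, s0 + t2, s1 + t2] ∧
      homR c (wd u) (1, 0) (1, 2) = val u [s1 + t0, s1 + t1, s1 + t2] ∧
      homR c (wd u) (0, 0) (1, 2) = val u [s0 + t0, s1 + t0, s1 + t1, s1 + t2] +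
        val u [s0 + t0, s0 + t1, s1 + t1, s1 + t2] + val u [s0 + t0, s0 + t1, s0 + t2, s1 + t2] := by
    intro u
    induction u with
    | nil =>
      rw [homR_nil]
      simp [val, Matrix.one_apply]
    | cons i u ih =>
      obtain ⟨h1, h2, h3, h4, h5, h6⟩ := ih
      rw [homR_cons]
      rcases (show i = 0 ∨ i = 1 by fin_cases i <;> simp) with rfl | rfl
      · simp only [val_zero, List.headD_cons, m0, h1, h2, h3, h4, h5, h6]
        refine ⟨?_, ?_, ?_, ?_, ?_, ?_⟩ <;> simp <;> ring
      · obtain ⟨k1, k2, k3, k4, k5, k6⟩ := m1 (homR c (wd u)) (1, 2)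
        simp only [val_one, List.tail_cons, val_nil_list, k1, k2, k3, k4, k5, k6, h1, h2, h3, h4,
          h5, true_and]
        ring
  have hl : homR c f (0, 0) (1, 2) = Psi [s0 + t0, s1 + t0, s1 + t1, s1 + t2] f +
      Psi [s0 + t0, s0 + t1, s1 + t1, s1 + t2] f + Psi [s0 + t0, s0 + t1, s0 + t2, s1 + t2] f := by
    clear hf
    induction f using al_induction with
    | h1 u => rw [(hw u).2.2.2.2.2, Psi_wd, Psi_wd, Psi_wd]
    | h2 P Q hP hQ => rw [map_add, Matrix.add_apply, hP, hQ]; simp only [map_add]; ring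
    | h3 r P hP =>
      rw [map_smul, Matrix.smul_apply, hP]
      simp only [map_smul, smul_eq_mul]
      ring
  rw [← hl, hc, lie_kron a b hf]
  simp [Matrix.kroneckerMap_apply, Matrix.one_apply]

end Pool.Agent.H21.BK
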