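import Pool.Graph.R_seed8.Y759.DS.Brk
import Pool.Agent.H21.BK.Par
import Pool.Agent.H21.Ech.Per

/-!
# Elements of depth four from even period polynomials
-/

set_option autoImplicit false

namespace Pool.Agent.H21.BK

open Pool.Agent.H777R4.DM Pool.Agent.H159.LS Pool.Agent.H21.Ech Finset

attribute [local instance 100] LieRing.ofAssociativeRing

/-! ### weights -/

theorem lenHom_zero (r : ℕ) : LenHom (0 : A) r := fun v hv => absurd (H777R4.DM.co_zero v) hv

theorem lenHom_add {f g : A} {r : ℕ} (hf : LenHom f r) (hg : LenHom g r) : LenHom (f + g) r := by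
  intro v hv
  rw [H777R4.DM.co_add] at hv
  by_cases h : co f v = 0
  · exact hg v fun h' => hv (by rw [h, h', add_zero])
  · exact hf v h

theorem lenHom_smul {f : A} {r : ℕ} (c : ℚ) (hf : LenHom f r) : LenHom (c • f) r := by
  intro v hv
  rw [H777R4.DM.co_smul] at hv
  exact hf v (right_ne_zero_of_mul hv)

theorem lenHom_neg {f : A} {r : ℕ} (hf : LenHom f r) : LenHom (-f) r := by
  have := lenHom_smul (-1) hf
  simpa using this

theorem lenHom_sub' {f g : A} {r : ℕ} (hf : LenHom f r) (hg : LenHom g r) : LenHom (f - g) r := by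
  rw [sub_eq_add_neg]
  exact lenHom_add hf (lenHom_neg hg)

theorem lenHom_sum {ι : Type} (s : Finset ι) (f : ι → A) {r : ℕ} (h : ∀ i ∈ s, LenHom (f i) r) :
    LenHom (∑ i ∈ s, f i) r := by
  classical
  induction s using Finset.induction_on with
  | empty => simpa using lenHom_zero r
  | insert a s ha ih =>
    rw [Finset.sum_insert ha]
    exact lenHom_add (h a (Finset.mem_insert_self _ _))
      (ih fun i hi => h i (Finset.mem_insert_of_mem hi))

theorem lenHom_mul {f g : A} {r t : ℕ} (hf : LenHom f r) (hg : LenHom g t) :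
    LenHom (f * g) (r + t) := by
  intro v hv
  rw [Y759.DS.co_mul] at hv
  obtain ⟨k, hk, hne⟩ := Finset.exists_ne_zero_of_sum_ne_zero hv
  have h1 := hf _ (left_ne_zero_of_mul hne)
  have h2 := hg _ (right_ne_zero_of_mul hne)
  have h3 : (v.take k).length + (v.drop k).length = v.length := by
    rw [← List.length_append, List.take_append_drop]
  omega

theorem lenHom_derW {f : A} {r : ℕ} (hf : LenHom f r) (u : List (Fin 2)) :
    LenHom (derW f u) (r + u.length) := by
  induction u with
  | nil => exact lenHom_zero _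
  | cons i u ih =>
    have hx : ∀ i : Fin 2, LenHom (x i) 1 := fun i => Y759.DS.lenHom_wd [i]
    have hu : LenHom (wd u : A) u.length := Y759.DS.lenHom_wd u
    rw [derW, List.length_cons]
    refine lenHom_add ?_ ?_
    · split_ifs
      · have h1 : LenHom (x 1 * f - f * x 1) (r + 1) := by
          refine lenHom_sub' ?_ ?_
          · have := lenHom_mul (hx 1) hf
            rwa [add_comm] at this
          · exact lenHom_mul hf (hx 1)
        have := lenHom_mul h1 hu
        rwa [show r + 1 + u.length = r + (u.length + 1) by ring] at this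
      · rw [zero_mul]
        exact lenHom_zero _
    · have := lenHom_mul (hx i) ih
      rwa [show 1 + (r + u.length) = r + (u.length + 1) by ring] at this

theorem lenHom_der {f g : A} {r t : ℕ} (hf : LenHom f r) (hg : LenHom g t) :
    LenHom (der f g) (r + t) := by
  rw [Lead2.expand g, map_sum]
  refine lenHom_sum _ _ fun m hm => ?_
  rw [map_smul]
  refine lenHom_smul _ ?_
  unfold der
  rw [lext_wd]
  have h1 := lenHom_derW hf (FreeMonoid.toList m)
  have h2 : (FreeMonoid.toList m).length = t := hg _ (Finsupp.mem_support_iff.1 hm)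
  rwa [h2] at h1

theorem lenHom_ihara {f g : A} {r t : ℕ} (hf : LenHom f r) (hg : LenHom g t) :
    LenHom (ihara f g) (r + t) := by
  unfold ihara
  refine lenHom_sub' (lenHom_add (lenHom_sub' (lenHom_mul hf hg) ?_) (lenHom_der hf hg)) ?_
  · have := lenHom_mul hg hf
    rwa [add_comm] at this
  · have := lenHom_der hg hf
    rwa [add_comm] at this

/-! ### the generating function in depth one -/

theorem Psi_depth_one {f : A} {p : ℕ} (hf : f ∈ LieX) (hN : LenHom f (p + 1)) (z0 z1 : ℚ) :
    Psi [z0, z1] f = co f (List.replicate p 0 ++ [1]) * (z0 - z1) ^ p := by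
  have e1 := Psi_translate hf (-z1) [z0, z1] (by simp)
  rw [← e1]
  have e2 : ([z0, z1].map fun z => z + -z1) = [z0 - z1, 0] := by
    simp [sub_eq_add_neg]
  rw [e2, Psi_lq f (p + 1) (fun u hu => (hN u hu).le) (z0 - z1) [0] (by simp),
    Finset.sum_eq_single p]
  · rw [Psi_single (lq p f) (p + 1) (fun u hu => by
      rw [co_lq] at hu
      have := hN _ hu
      rw [List.length_append, List.length_replicate, List.length_cons] at this
      omega) 0, Finset.sum_eq_single 0]
    · rw [co_lq]
      simp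
      ring
    · intro a _ ha
      rw [zero_pow ha, zero_mul]
    · intro h
      exact absurd (mem_range.2 (by omega)) h
  · intro a _ ha
    rw [Psi_single (lq a f) (p + 1) (fun u hu => by
      rw [co_lq] at hu
      have := hN _ hu
      simp at this
      omega) 0, Finset.sum_eq_single 0]
    · rw [co_lq]
      have : co f (List.replicate a 0 ++ 1 :: List.replicate 0 0) = 0 := by
        by_contra hne
        have := hN _ hne
        simp at this
        omega
      rw [this, mul_zero, mul_zero]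
    · intro a _ ha
      rw [zero_pow ha, zero_mul]
    · intro h
      exact absurd (mem_range.2 (by omega)) h
  · intro h
    exact absurd (mem_range.2 (by omega)) h

/-! ### the generating function of a bracket in depth two -/

theorem Psi_x_mul (zs : List ℚ) (i : Fin 2) (g : A) :
    Psi zs (x i * g) = if i = 1 then Psi zs.tail g else zs.headD 0 * Psi zs g := by
  induction g using al_induction with
  | h1 u =>
    have : (x i * wd u : A) = wd (i :: u) := by
      show wd [i] * wd u = _
      rw [wd_mul]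
      rfl
    rw [this, Psi_wd, Psi_wd, Psi_wd]
    rfl
  | h2 P Q hP hQ =>
    rw [mul_add, map_add, hP, hQ, map_add, map_add]
    split_ifs <;> ring
  | h3 c P hP =>
    rw [mul_smul_comm, map_smul, hP, map_smul, map_smul]
    split_ifs <;> simp only [smul_eq_mul]
    ring

theorem derW_mem_D {f : A} (hf : f ∈ D 1) (u : List (Fin 2)) : derW f u ∈ D 1 := by
  have h := Cnt.derW (p := fun n => 1 ≤ n) hf u
  intro w hw
  obtain ⟨a, ha, hn⟩ := h w hw
  omega

theorem brk_mem_D {f : A} (hf : f ∈ D 1) : x 1 * f - f * x 1 ∈ D 2 := by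
  have hx : Cnt (fun n => n = 1) (x 1) := Cnt.wd [1]
  refine (D 2).sub_mem ?_ ?_
  · exact Cnt.mul (p := fun n => n = 1) (q := fun n => 1 ≤ n) (s := fun n => 2 ≤ n)
      (fun a b ha hb => by omega) hx hf
  · exact Cnt.mul (p := fun n => 1 ≤ n) (q := fun n => n = 1) (s := fun n => 2 ≤ n)
      (fun a b ha hb => by omega) hf hx

theorem Psi_derW_two {f : A} (hf : f ∈ D 1) (u : List (Fin 2)) : ∀ y1 y2 : ℚ,
    Psi [y1, y2] (derW f u) = 0 := by
  induction u with
  | nil => intro y1 y2; simp [derW]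
  | cons i u ih =>
    intro y1 y2
    rw [derW, map_add, Psi_x_mul]
    rcases (show i = 0 ∨ i = 1 by fin_cases i <;> simp) with rfl | rfl
    · simp [ih]
    · simp only [if_true, List.tail_cons]
      rw [Psi_D (derW_mem_D hf u) [y2] (by simp), add_zero, Psi_mul]
      refine Finset.sum_eq_zero fun k hk => ?_
      rw [Psi_D (brk_mem_D hf) _ (by rw [List.length_take]; simp), zero_mul]

theorem Psi_derW {f : A} (hf : f ∈ D 1) (z0 z1 z2 : ℚ) (u : List (Fin 2)) :
    Psi [z0, z1, z2] (derW f u) = val u [z0, z2] * (Psi [z1, z2] f - Psi [z0, z1] f) := by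
  induction u with
  | nil => simp [derW, val]
  | cons i u ih =>
    rw [derW, map_add, Psi_x_mul]
    rcases (show i = 0 ∨ i = 1 by fin_cases i <;> simp) with rfl | rfl
    · rw [ih, val_zero]
      simp
      ring
    · simp only [if_true, List.tail_cons]
      rw [Psi_derW_two hf, add_zero, val_one, List.tail_cons, Psi_mul]
      simp only [List.length_cons, List.length_nil, Finset.sum_range_succ, Finset.sum_range_zero,
        zero_add, List.take_succ_cons, List.take_zero, List.drop_zero, List.drop_succ_cons]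
      have h0 := brk_mem_D hf
      rw [Psi_D h0 [z0] (by simp), Psi_D h0 [z0, z1] (by simp), zero_mul, zero_mul, zero_add,
        zero_add, Psi_wd, map_sub, Psi_x_mul, Psi_mul]
      simp only [List.length_cons, List.length_nil, Finset.sum_range_succ, Finset.sum_range_zero,
        zero_add, List.take_succ_cons, List.take_zero, List.drop_zero, List.drop_succ_cons,
        if_true, List.tail_cons, Psi_x1]
      simp
      ring

theorem Psi_der {f : A} (hf : f ∈ D 1) (z0 z1 z2 : ℚ) (g : A) :
    Psi [z0, z1, z2] (der f g) = Psi [z0, z2] g * (Psi [z1, z2] f - Psi [z0, z1] f) := by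
  induction g using al_induction with
  | h1 u =>
    unfold der
    rw [lext_wd, Psi_derW hf, Psi_wd]
  | h2 P Q hP hQ => rw [map_add, map_add, hP, hQ, map_add]; ring
  | h3 c P hP => rw [map_smul, map_smul, hP, map_smul, smul_eq_mul, smul_eq_mul]; ring

theorem Psi_mul_two {f g : A} (hf : f ∈ D 1) (hg : g ∈ D 1) (z0 z1 z2 : ℚ) :
    Psi [z0, z1, z2] (f * g) = Psi [z0, z1] f * Psi [z1, z2] g := by
  rw [Psi_mul]
  simp only [List.length_cons, List.length_nil, Finset.sum_range_succ, Finset.sum_range_zero,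
    zero_add, List.take_succ_cons, List.take_zero, List.drop_zero, List.drop_succ_cons]
  rw [Psi_D hf [z0] (by simp), Psi_D hg [z2] (by simp)]
  ring

theorem Psi_ihara {f g : A} (hf : f ∈ D 1) (hg : g ∈ D 1) (z0 z1 z2 : ℚ) :
    Psi [z0, z1, z2] (ihara f g) = Psi [z0, z1] f * Psi [z1, z2] g -
      Psi [z0, z1] g * Psi [z1, z2] f + Psi [z0, z2] g * (Psi [z1, z2] f - Psi [z0, z1] f) -
      Psi [z0, z2] f * (Psi [z1, z2] g - Psi [z0, z1] g) := by
  unfold ihara
  rw [map_sub, map_add, map_sub, Psi_mul_two hf hg, Psi_mul_two hg hf, Psi_der hf, Psi_der hg]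

/-! ### the relation of period polynomials at all points -/

theorem period_all {n : ℕ} {c : ℕ → ℚ} (hanti : ∀ j ≤ n, c (n - j) = - c j)
    (h : ∀ x : ℚ, x ≠ 0 → x ≠ -1 → ∑ j ∈ range (n + 1), c j * ((x + 1) ^ (2 * (n - j)) -
        (x + 1) ^ (2 * (n - j)) * x ^ (2 * j) - x ^ (2 * (n - j))) = 0) (a b : ℚ) :
    ∑ j ∈ range (n + 1), c j * ((a + b) ^ (2 * (n - j)) * b ^ (2 * j)) -
      ∑ j ∈ range (n + 1), c j * ((a + b) ^ (2 * (n - j)) * a ^ (2 * j)) -
      ∑ j ∈ range (n + 1), c j * (a ^ (2 * (n - j)) * b ^ (2 * j)) = 0 := by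
  -- all `x`
  have h1 : ∀ x : ℚ, ∑ j ∈ range (n + 1), c j * ((x + 1) ^ (2 * (n - j)) -
        (x + 1) ^ (2 * (n - j)) * x ^ (2 * j) - x ^ (2 * (n - j))) = 0 := by
    have hp : (∑ j ∈ range (n + 1), Polynomial.C (c j) * ((Polynomial.X + 1) ^ (2 * (n - j)) -
        (Polynomial.X + 1) ^ (2 * (n - j)) * Polynomial.X ^ (2 * j) -
        Polynomial.X ^ (2 * (n - j))) : Polynomial ℚ) = 0 := by
      refine Polynomial.eq_zero_of_infinite_isRoot _ ?_
      refine Set.Infinite.mono ?_ (Set.toFinite ({0, -1} : Set ℚ)).infinite_compl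
      intro z hz
      simp only [Set.mem_compl_iff, Set.mem_insert_iff, Set.mem_singleton_iff, not_or] at hz
      show Polynomial.IsRoot _ z
      rw [Polynomial.IsRoot.def, Polynomial.eval_finsetSum, ← h z hz.1 hz.2]
      refine Finset.sum_congr rfl fun j _ => ?_
      simp
    intro z
    have h2 := congrArg (fun p => Polynomial.eval z p) hp
    simp only [Polynomial.eval_finsetSum, Polynomial.eval_zero] at h2
    rw [← h2]
    refine Finset.sum_congr rfl fun j _ => ?_
    simp
  by_cases hb : b = 0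
  · subst hb
    have h3 : ∑ j ∈ range (n + 1), c j * (a ^ (2 * (n - j)) * a ^ (2 * j)) = 0 := by
      have e1 : ∀ j ∈ range (n + 1), c j * (a ^ (2 * (n - j)) * a ^ (2 * j)) = c j * a ^ (2 * n) := by
        intro j hj
        rw [mem_range] at hj
        rw [← pow_add]
        congr 2
        omega
      rw [Finset.sum_congr rfl e1, ← Finset.sum_mul]
      have e2 := Finset.sum_range_reflect c (n + 1)
      have e3 : ∑ j ∈ range (n + 1), c (n + 1 - 1 - j) = - ∑ j ∈ range (n + 1), c j := by
        rw [← Finset.sum_neg_distrib]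
        refine Finset.sum_congr rfl fun j hj => ?_
        rw [mem_range] at hj
        rw [show n + 1 - 1 - j = n - j by omega, hanti j (by omega)]
      rw [e3] at e2
      have e4 : ∑ j ∈ range (n + 1), c j = 0 := by linarith
      rw [e4, zero_mul]
    simp only [add_zero]
    rw [h3]
    ring
  · have h2 := h1 (a / b)
    have h3 : ∑ j ∈ range (n + 1), c j * ((a + b) ^ (2 * (n - j)) * b ^ (2 * j)) -
      ∑ j ∈ range (n + 1), c j * ((a + b) ^ (2 * (n - j)) * a ^ (2 * j)) -
      ∑ j ∈ range (n + 1), c j * (a ^ (2 * (n - j)) * b ^ (2 * j)) =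
      b ^ (2 * n) * ∑ j ∈ range (n + 1), c j * ((a / b + 1) ^ (2 * (n - j)) -
        (a / b + 1) ^ (2 * (n - j)) * (a / b) ^ (2 * j) - (a / b) ^ (2 * (n - j))) := by
      rw [← Finset.sum_sub_distrib, ← Finset.sum_sub_distrib, Finset.mul_sum]
      refine Finset.sum_congr rfl fun j hj => ?_
      rw [mem_range] at hj
      have e1 : b ^ (2 * n) = b ^ (2 * (n - j)) * b ^ (2 * j) := by
        rw [← pow_add]
        congr 1
        omega
      have e2 : b ^ (2 * (n - j)) * (a / b + 1) ^ (2 * (n - j)) = (a + b) ^ (2 * (n - j)) := by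
        rw [← mul_pow]
        congr 1
        field_simp
      have e3 : b ^ (2 * j) * (a / b) ^ (2 * j) = a ^ (2 * j) := by
        rw [← mul_pow]
        congr 1
        field_simp
      have e4 : b ^ (2 * (n - j)) * (a / b) ^ (2 * (n - j)) = a ^ (2 * (n - j)) := by
        rw [← mul_pow]
        congr 1
        field_simp
      rw [e1]
      calc c j * ((a + b) ^ (2 * (n - j)) * b ^ (2 * j)) -
            c j * ((a + b) ^ (2 * (n - j)) * a ^ (2 * j)) -
            c j * (a ^ (2 * (n - j)) * b ^ (2 * j))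
          = c j * ((b ^ (2 * (n - j)) * (a / b + 1) ^ (2 * (n - j))) * b ^ (2 * j)) -
            c j * ((b ^ (2 * (n - j)) * (a / b + 1) ^ (2 * (n - j))) *
              (b ^ (2 * j) * (a / b) ^ (2 * j))) -
            c j * ((b ^ (2 * (n - j)) * (a / b) ^ (2 * (n - j))) * b ^ (2 * j)) := by
            rw [e2, e3, e4]
        _ = _ := by ring
    rw [h3, h2, mul_zero]

/-- swapping the two arguments -/
theorem swap_sum {n : ℕ} {c : ℕ → ℚ} (hanti : ∀ j ≤ n, c (n - j) = - c j) (a b : ℚ) :
    ∑ j ∈ range (n + 1), c j * (a ^ (2 * j) * b ^ (2 * (n - j))) =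
      - ∑ j ∈ range (n + 1), c j * (a ^ (2 * (n - j)) * b ^ (2 * j)) := by
  rw [← Finset.sum_range_reflect, ← Finset.sum_neg_distrib]
  refine Finset.sum_congr rfl fun j hj => ?_
  rw [mem_range] at hj
  rw [show n + 1 - 1 - j = n - j by omega, hanti j (by omega), show n - (n - j) = j by omega]
  ring

/-- the sum of the brackets in depth two -/
theorem depth_two_zero {n : ℕ} {c : ℕ → ℚ} (hanti : ∀ j ≤ n, c (n - j) = - c j) (hc0 : c 0 = 0)
    (h : ∀ x : ℚ, x ≠ 0 → x ≠ -1 → ∑ j ∈ range (n + 1), c j * ((x + 1) ^ (2 * (n - j)) -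
        (x + 1) ^ (2 * (n - j)) * x ^ (2 * j) - x ^ (2 * (n - j))) = 0)
    (f : ℕ → A) (hLie : ∀ j ∈ Finset.Ico 1 n, f j ∈ LieX) (hD : ∀ j ∈ Finset.Ico 1 n, f j ∈ D 1)
    (hN : ∀ j ∈ Finset.Ico 1 n, LenHom (f j) (2 * j + 1)) (z0 z1 z2 : ℚ)
    (κ : ℕ → ℚ) (hκ : ∀ j ∈ Finset.Ico 1 n, κ j = co (f j) (List.replicate (2 * j) 0 ++ [1]) ∧
      κ j ≠ 0) :
    Psi [z0, z1, z2] (∑ j ∈ Finset.Ico 1 n, (c j / (κ (n - j) * κ j)) •
      ihara (f (n - j)) (f j)) = 0 := by
  have hmem : ∀ j ∈ Finset.Ico 1 n, n - j ∈ Finset.Ico 1 n := by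
    intro j hj
    rw [Finset.mem_Ico] at hj ⊢
    omega
  rw [map_sum]
  have e1 : ∀ j ∈ Finset.Ico 1 n, Psi [z0, z1, z2] ((c j / (κ (n - j) * κ j)) •
      ihara (f (n - j)) (f j)) =
      c j * ((z0 - z1) ^ (2 * (n - j)) * (z1 - z2) ^ (2 * j)) -
      c j * ((z0 - z1) ^ (2 * j) * (z1 - z2) ^ (2 * (n - j))) +
      c j * ((z0 - z2) ^ (2 * j) * (z1 - z2) ^ (2 * (n - j))) -
      c j * ((z0 - z2) ^ (2 * j) * (z0 - z1) ^ (2 * (n - j))) -
      c j * ((z0 - z2) ^ (2 * (n - j)) * (z1 - z2) ^ (2 * j)) +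
      c j * ((z0 - z2) ^ (2 * (n - j)) * (z0 - z1) ^ (2 * j)) := by
    intro j hj
    have hj' := hmem j hj
    rw [map_smul, Psi_ihara (hD _ hj') (hD _ hj)]
    simp only [Psi_depth_one (hLie _ hj') (hN _ hj'), Psi_depth_one (hLie _ hj) (hN _ hj)]
    rw [← (hκ _ hj).1, ← (hκ _ hj').1, smul_eq_mul]
    have k1 := (hκ _ hj).2
    have k2 := (hκ _ hj').2
    field_simp
    ring
  rw [Finset.sum_congr rfl e1]
  -- extend the sums
  have hcn : c n = 0 := by
    have := hanti 0 (Nat.zero_le n)
    rw [Nat.sub_zero, hc0, neg_zero] at this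
    exact this
  have ext1 : ∀ F : ℕ → ℚ, (∀ j, c j = 0 → F j = 0) →
      ∑ j ∈ Finset.Ico 1 n, F j = ∑ j ∈ range (n + 1), F j := by
    intro F hF
    apply Finset.sum_subset
    · intro j hj
      rw [Finset.mem_Ico] at hj
      rw [mem_range]
      omega
    · intro j hj hj'
      rw [mem_range] at hj
      rw [Finset.mem_Ico] at hj'
      apply hF
      rcases (show j = 0 ∨ j = n by omega) with h | h
      · rw [h, hc0]
      · rw [h, hcn]
  rw [ext1 _ (by intro j hj; rw [hj]; ring)]
  simp only [Finset.sum_add_distrib, Finset.sum_sub_distrib]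
  have p := period_all hanti h (z0 - z1) (z1 - z2)
  rw [show z0 - z1 + (z1 - z2) = z0 - z2 by ring] at p
  have s1 := swap_sum hanti (z0 - z1) (z1 - z2)
  have s2 := swap_sum hanti (z0 - z2) (z1 - z2)
  have s3 := swap_sum hanti (z0 - z2) (z0 - z1)
  rw [s1, s2, s3]
  linarith

end Pool.Agent.H21.BK
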