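import Pool.Agent.H21.BK.Rho

/-!
# Words in the generators and the bound for the depth filtration
-/

set_option autoImplicit false

namespace Pool.Agent.H21.BK

open Pool.Agent.H777R4.DM Pool.Agent.H159.LS Finset

attribute [local instance 100] LieRing.ofAssociativeRing

/-- words in the odd numbers `≥ 3` -/
def Ok (w : List ℕ) : Prop := ∀ a ∈ w, Odd a ∧ 3 ≤ a

/-- The number of patterns found from the left: a pattern is a pair `a, b` of neighbours with
`b ≤ 2 dim S_{a+b} + 1`; patterns that are found are disjoint. -/
def npat : List ℕ → ℕ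
  | [] => 0
  | [_] => 0
  | a :: b :: v => if b ≤ 2 * dimS (a + b) + 1 then npat v + 1 else npat (b :: v)

/-- the depth of a word: every letter counts `1`, every pattern `2` -/
def dep (w : List ℕ) : ℕ := w.length + 2 * npat w

/-- `s_{σ a_1} ⋯ s_{σ a_n}` -/
noncomputable def act (σ : ℕ → A) (w : List ℕ) : Module.End ℚ A := (w.map fun a => s (σ a)).prod

theorem act_nil (σ : ℕ → A) : act σ [] = 1 := rfl

theorem act_cons (σ : ℕ → A) (a : ℕ) (w : List ℕ) : act σ (a :: w) = s (σ a) * act σ w := by
  simp [act]

/-- lexicographic code -/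
def code (B : ℕ) : List ℕ → ℕ
  | [] => 0
  | a :: u => a * B ^ u.length + code B u

theorem code_lt (B : ℕ) (w : List ℕ) (h : ∀ a ∈ w, a < B) : code B w < B ^ w.length := by
  induction w with
  | nil => simp [code]
  | cons a u ih =>
    have h1 := ih fun b hb => h b (List.mem_cons_of_mem _ hb)
    have h2 := h a (List.mem_cons_self)
    rw [code, List.length_cons, pow_succ]
    have h3 : (a + 1) * B ^ u.length ≤ B * B ^ u.length := Nat.mul_le_mul_right _ h2
    nlinarith

theorem lt_of_sum_lt {B : ℕ} {w : List ℕ} (h : w.sum < B) : ∀ a ∈ w, a < B := fun a ha =>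
  lt_of_le_of_lt (List.le_sum_of_mem ha) h

/-- the words of the same length and weight with smaller code -/
def Acts (σ : ℕ → A) (B : ℕ) (w : List ℕ) : Set (Module.End ℚ A) :=
  {X | ∃ w', Ok w' ∧ w'.length = w.length ∧ w'.sum = w.sum ∧ code B w' < code B w ∧ X = act σ w'}

theorem Ok.tail {a : ℕ} {w : List ℕ} (h : Ok (a :: w)) : Ok w :=
  fun b hb => h b (List.mem_cons_of_mem _ hb)

theorem exists_M {g : Submodule ℚ A} {σ : ℕ → A} (G : Gens g σ) (B : ℕ) : ∀ (n : ℕ) (w : List ℕ),
    w.length = n → Ok w → w.sum < B →
    ∃ M : Module.End ℚ A, Raises (dep w) M ∧ M - act σ w ∈ Submodule.span ℚ (Acts σ B w) := by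
  intro n
  induction n using Nat.strong_induction_on with
  | _ n ih =>
    intro w hn hw hB
    rcases w with _ | ⟨a, _ | ⟨b, v⟩⟩
    · refine ⟨1, ?_, ?_⟩
      · intro t f hf
        simpa [dep, npat] using hf
      · rw [act_nil, sub_self]
        exact Submodule.zero_mem _
    · refine ⟨s (σ a), ?_, ?_⟩
      · have h1 := G.dm _ (G.mem a (hw a (by simp)).1 (hw a (by simp)).2)
        have h2 : σ a ∈ D 1 := fun u hu => (small_dm h1 u hu).2
        have h3 := raises_s h2
        simpa [dep, npat] using h3
      · rw [act_cons, act_nil, mul_one, sub_self]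
        exact Submodule.zero_mem _
    · obtain ⟨ha, ha3⟩ := hw a (by simp)
      obtain ⟨hb, hb3⟩ := hw b (by simp)
      simp only [List.length_cons] at hn
      simp only [List.sum_cons] at hB
      by_cases hp : b ≤ 2 * dimS (a + b) + 1
      · obtain ⟨T, hT, hT'⟩ := exists_T G ha hb hb3 hp
        obtain ⟨M, hM, hM'⟩ := ih v.length (by omega) v rfl hw.tail.tail (by omega)
        refine ⟨T * M, ?_, ?_⟩
        · have h1 := hT.mul hM
          have h2 : dep (a :: b :: v) = 4 + dep v := by
            simp only [dep, npat, if_pos hp, List.length_cons]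
            ring
          rw [h2]
          exact h1
        · have e1 : T * M - act σ (a :: b :: v) = (T - s (σ a) * s (σ b)) * (M - act σ v) +
              (T - s (σ a) * s (σ b)) * act σ v + (s (σ a) * s (σ b)) * (M - act σ v) := by
            rw [act_cons, act_cons]
            simp only [mul_sub, sub_mul, mul_assoc]
            abel
          have hcv := code_lt B v (lt_of_sum_lt (by omega))
          have key : ∀ a' b' (v' : List ℕ), Odd a' → 3 ≤ a' → Odd b' → 3 ≤ b' → a' + b' = a + b →
              Ok v' → v'.length = v.length → v'.sum = v.sum →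
              (a' < a ∨ (a' = a ∧ code B v' < code B v)) →
              s (σ a') * s (σ b') * act σ v' ∈ Acts σ B (a :: b :: v) := by
            intro a' b' v' h1 h2 h3 h4 h5 h6 h7 h8 h9
            refine ⟨a' :: b' :: v', ?_, by simp [h7], by simp only [List.sum_cons]; omega, ?_, ?_⟩
            · intro y hy
              rcases List.mem_cons.1 hy with rfl | hy
              · exact ⟨h1, h2⟩
              · rcases List.mem_cons.1 hy with rfl | hy
                · exact ⟨h3, h4⟩
                · exact h6 y hy
            · have hcv' := code_lt B v' (lt_of_sum_lt (by omega))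
              rw [h7] at hcv'
              simp only [code, List.length_cons, h7, pow_succ]
              rcases h9 with h9 | ⟨rfl, h9⟩
              · have e2 : (b' + 1) * B ^ v.length ≤ B * B ^ v.length :=
                  Nat.mul_le_mul_right _ (by omega)
                have e3 : (a' + 1) * (B ^ v.length * B) ≤ a * (B ^ v.length * B) :=
                  Nat.mul_le_mul_right _ (by omega)
                nlinarith [Nat.zero_le (b * B ^ v.length), Nat.zero_le (code B v)]
              · have : b' = b := by omega
                subst this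
                omega
            · rw [act_cons, act_cons, mul_assoc]
          rw [e1]
          refine Submodule.add_mem _ (Submodule.add_mem _ ?_ ?_) ?_
          · have h1 := Submodule.mul_mem_mul hT' hM'
            rw [Submodule.span_mul_span] at h1
            refine Submodule.span_mono ?_ h1
            rintro _ ⟨X, ⟨a', b', k1, k2, k3, k4, k5, k6, rfl⟩, Y, ⟨v', l1, l2, l3, l4, rfl⟩, rfl⟩
            exact key a' b' v' k1 k2 k3 k4 k5 l1 l2 l3 (Or.inl k6)
          · have h1 := Submodule.mul_mem_mul hT' (Submodule.subset_span (R := ℚ)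
              (Set.mem_singleton (act σ v)))
            rw [Submodule.span_mul_span] at h1
            refine Submodule.span_mono ?_ h1
            rintro _ ⟨X, ⟨a', b', k1, k2, k3, k4, k5, k6, rfl⟩, Y, rfl, rfl⟩
            exact key a' b' v k1 k2 k3 k4 k5 hw.tail.tail rfl rfl (Or.inl k6)
          · have h1 := Submodule.mul_mem_mul (Submodule.subset_span (R := ℚ)
              (Set.mem_singleton (s (σ a) * s (σ b)))) hM'
            rw [Submodule.span_mul_span] at h1
            refine Submodule.span_mono ?_ h1
            rintro _ ⟨X, rfl, Y, ⟨v', l1, l2, l3, l4, rfl⟩, rfl⟩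
            exact key a b v' ha ha3 hb hb3 rfl l1 l2 l3 (Or.inr ⟨rfl, l4⟩)
      · obtain ⟨M, hM, hM'⟩ := ih (b :: v).length (by simp only [List.length_cons]; omega) (b :: v)
          rfl hw.tail (by simp only [List.sum_cons]; omega)
        have h1 := G.dm _ (G.mem a ha ha3)
        have h2 : σ a ∈ D 1 := fun u hu => (small_dm h1 u hu).2
        refine ⟨s (σ a) * M, ?_, ?_⟩
        · have h3 := (raises_s h2).mul hM
          have h4 : dep (a :: b :: v) = 1 + dep (b :: v) := by
            simp only [dep, npat, if_neg hp, List.length_cons]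
            ring
          rw [h4]
          exact h3
        · have e1 : s (σ a) * M - act σ (a :: b :: v) = s (σ a) * (M - act σ (b :: v)) := by
            rw [act_cons σ a, mul_sub]
          rw [e1]
          have h3 := Submodule.mul_mem_mul (Submodule.subset_span (R := ℚ)
              (Set.mem_singleton (s (σ a)))) hM'
          rw [Submodule.span_mul_span] at h3
          refine Submodule.span_mono ?_ h3
          rintro _ ⟨X, rfl, Y, ⟨u', l1, l2, l3, l4, rfl⟩, rfl⟩
          refine ⟨a :: u', ?_, by simp [l2], by simp [l3], ?_, by rw [act_cons]⟩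
          · intro y hy
            rcases List.mem_cons.1 hy with rfl | hy
            · exact ⟨ha, ha3⟩
            · exact l1 y hy
          · rw [code, code, l2]
            omega

/-! ### finiteness -/

/-- the words of weight `m` (for `n ≥ m`) -/
def wl : ℕ → ℕ → Finset (List ℕ)
  | 0, m => if m = 0 then {[]} else ∅
  | n + 1, m => if m = 0 then {[]} else
      ((range (m + 1)).filter fun a => a % 2 = 1 ∧ 3 ≤ a).biUnion fun a =>
        (wl n (m - a)).image (List.cons a)

theorem mem_wl : ∀ (n m : ℕ), m ≤ n → ∀ w, w ∈ wl n m ↔ Ok w ∧ w.sum = m := by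
  have hnil : ∀ w : List ℕ, Ok w → w.sum = 0 → w = [] := by
    intro w hw hs
    rcases w with _ | ⟨a, u⟩
    · rfl
    · have := (hw a (by simp)).2
      rw [List.sum_cons] at hs
      omega
  intro n
  induction n with
  | zero =>
    intro m hm w
    have : m = 0 := by omega
    subst this
    rw [wl, if_pos rfl, Finset.mem_singleton]
    constructor
    · rintro rfl
      exact ⟨fun a ha => by simp at ha, rfl⟩
    · rintro ⟨h1, h2⟩
      exact hnil w h1 h2
  | succ n ih =>
    intro m hm w
    rw [wl]
    split_ifs with h0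
    · subst h0
      rw [Finset.mem_singleton]
      constructor
      · rintro rfl
        exact ⟨fun a ha => by simp at ha, rfl⟩
      · rintro ⟨h1, h2⟩
        exact hnil w h1 h2
    · rw [Finset.mem_biUnion]
      constructor
      · rintro ⟨a, ha, hw⟩
        rw [Finset.mem_filter, mem_range] at ha
        rw [Finset.mem_image] at hw
        obtain ⟨u, hu, rfl⟩ := hw
        rw [ih (m - a) (by omega)] at hu
        refine ⟨?_, ?_⟩
        · intro y hy
          rcases List.mem_cons.1 hy with rfl | hy
          · exact ⟨Nat.odd_iff.2 ha.2.1, ha.2.2⟩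
          · exact hu.1 y hy
        · rw [List.sum_cons, hu.2]
          omega
      · rintro ⟨h1, h2⟩
        rcases w with _ | ⟨a, u⟩
        · simp at h2
          omega
        · have ha := h1 a (by simp)
          rw [List.sum_cons] at h2
          refine ⟨a, ?_, ?_⟩
          · rw [Finset.mem_filter, mem_range]
            exact ⟨by omega, Nat.odd_iff.1 ha.1, ha.2⟩
          · rw [Finset.mem_image]
            refine ⟨u, ?_, rfl⟩
            rw [ih (m - a) (by omega)]
            exact ⟨fun y hy => h1 y (List.mem_cons_of_mem _ hy), by omega⟩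

/-- the pairs of a word and a number `j` (for `τ j`) of total weight `k` and depth at most `r` -/
def Idx (k r : ℕ) : Set (List ℕ × ℕ) :=
  {p | Ok p.1 ∧ p.1.sum + 2 * p.2 = k ∧ dep p.1 + (if p.2 = 0 then 0 else 1) ≤ r}

theorem idx_finite (k r : ℕ) : (Idx k r).Finite := by
  refine Set.Finite.subset (Finset.finite_toSet
    ((range (k + 1)).biUnion fun j => (wl k (k - 2 * j)).image fun w => (w, j))) ?_
  rintro ⟨w, j⟩ ⟨h1, h2, -⟩
  simp only at h1 h2
  rw [Finset.mem_coe, Finset.mem_biUnion]
  refine ⟨j, mem_range.2 (by omega), ?_⟩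
  rw [Finset.mem_image]
  refine ⟨w, ?_, rfl⟩
  rw [mem_wl k (k - 2 * j) (by omega)]
  exact ⟨h1, by omega⟩

/-! ### the bound -/

/-- The elements `act σ w (τ j)` of weight `k`: a functional which vanishes on the elements of depth
greater than `r` and on finitely many elements vanishes on all. -/
theorem functional_zero {σ : ℕ → A} (τ : ℕ → A)
    (hτ : ∀ j, 1 ≤ j → τ j ∈ D 1) (k r : ℕ) (M : List ℕ → Module.End ℚ A)
    (hM : ∀ w, Ok w → w.sum ≤ k → Raises (dep w) (M w) ∧
      M w - act σ w ∈ Submodule.span ℚ (Acts σ (k + 1) w))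
    (L : A →ₗ[ℚ] ℚ) (hL : ∀ f ∈ D (r + 1), L f = 0)
    (h : ∀ p ∈ Idx k r, L (M p.1 (τ p.2)) = 0) :
    ∀ (w : List ℕ) (j : ℕ), Ok w → w.sum + 2 * j = k → L (act σ w (τ j)) = 0 := by
  have main : ∀ (c : ℕ) (w : List ℕ) (j : ℕ), code (k + 1) w = c → Ok w → w.sum + 2 * j = k →
      L (act σ w (τ j)) = 0 := by
    intro c
    induction c using Nat.strong_induction_on with
    | _ c ih =>
      intro w j hc hw hk
      obtain ⟨h1, h2⟩ := hM w hw (by omega)
      have h3 : L (M w (τ j)) = 0 := by
        by_cases hI : (w, j) ∈ Idx k r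
        · exact h (w, j) hI
        · have h4 : r + 1 ≤ dep w + (if j = 0 then 0 else 1) := by
            by_contra hcon
            exact hI ⟨hw, hk, by simp only; omega⟩
          apply hL
          by_cases hj : j = 0
          · rw [if_pos hj] at h4
            have h5 := h1 0 (τ j) (fun u _ => Nat.zero_le _)
            exact D_mono (by omega) h5
          · rw [if_neg hj] at h4
            have h5 := h1 1 (τ j) (hτ j (by omega))
            exact D_mono (by omega) h5
      have h6 : ∀ X ∈ Submodule.span ℚ (Acts σ (k + 1) w), L (X (τ j)) = 0 := by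
        intro X hX
        induction hX using Submodule.span_induction with
        | mem X hX =>
          obtain ⟨w', l1, l2, l3, l4, rfl⟩ := hX
          exact ih (code (k + 1) w') (hc ▸ l4) w' j rfl l1 (by omega)
        | zero => simp
        | add X Y _ _ hX hY => rw [LinearMap.add_apply, map_add, hX, hY, add_zero]
        | smul r X _ hX => rw [LinearMap.smul_apply, map_smul, hX, smul_zero]
      have h7 := h6 _ h2
      rw [LinearMap.sub_apply, map_sub, h3, zero_sub, neg_eq_zero] at h7
      exact h7
  intro w j hw hk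
  exact main _ w j rfl hw hk

/-- the dimension of the image of a map whose kernel contains the kernel of another one -/
theorem finrank_range_le_of_ker {N V W : Type*} [AddCommGroup N] [Module ℚ N] [AddCommGroup V]
    [Module ℚ V] [AddCommGroup W] [Module ℚ W] [Module.Finite ℚ W] (Λ : N →ₗ[ℚ] W) (φ : N →ₗ[ℚ] V)
    (h : LinearMap.ker Λ ≤ LinearMap.ker φ) :
    Module.finrank ℚ (LinearMap.range φ) ≤ Module.finrank ℚ W := by
  have h1 : LinearMap.range ((LinearMap.ker Λ).liftQ φ h) = LinearMap.range φ :=
    Submodule.range_liftQ _ _ _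
  have e := Λ.quotKerEquivRange
  have hfin : Module.Finite ℚ (N ⧸ LinearMap.ker Λ) := Module.Finite.equiv e.symm
  rw [← h1]
  calc Module.finrank ℚ (LinearMap.range ((LinearMap.ker Λ).liftQ φ h))
      ≤ Module.finrank ℚ (N ⧸ LinearMap.ker Λ) := LinearMap.finrank_range_le _
    _ = Module.finrank ℚ (LinearMap.range Λ) := e.finrank_eq
    _ ≤ Module.finrank ℚ W := Submodule.finrank_le _

/-- **The bound.** -/
theorem bound {g : Submodule ℚ A} {σ : ℕ → A} (G : Gens g σ) (τ : ℕ → A)
    (hτ : ∀ j, 1 ≤ j → ∀ u, co (τ j) u ≠ 0 → 1 ≤ u.count 1) {V : Type*} [AddCommGroup V] [Module ℚ V]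
    (W : Set (List (Fin 2))) (ζ : List (Fin 2) → V) (k : ℕ)
    (hζ : ∀ c : List (Fin 2) →₀ ℚ, (∀ u ∈ c.support, u ∈ W ∧ u.length = k) →
      (∀ (w : List ℕ) (j : ℕ), Ok w → w.sum + 2 * j = k →
        (c.sum fun u r => r * co (act σ w (τ j)) u) = 0) → (c.sum fun u r => r • ζ u) = 0)
    (r : ℕ) :
    Module.finrank ℚ (Submodule.span ℚ {y | ∃ u ∈ W, u.length = k ∧ u.count 1 ≤ r ∧ y = ζ u}) ≤
      (Idx k r).ncard := by
  classical
  -- the words
  set S : Set (List (Fin 2)) := {u | u ∈ W ∧ u.length = k ∧ u.count 1 ≤ r} with hS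
  choose! M hM using fun (w : List ℕ) (hw : Ok w ∧ w.sum ≤ k) =>
    exists_M G (k + 1) w.length w rfl hw.1 (by omega)
  have hfin := idx_finite k r
  have : Finite (Idx k r) := hfin
  have : Fintype (Idx k r) := Fintype.ofFinite _
  -- the functionals
  let co' : List (Fin 2) → A →ₗ[ℚ] ℚ := fun u =>
    { toFun := fun f => co f u
      map_add' := fun f h => H777R4.DM.co_add f h u
      map_smul' := fun c f => by simp [H777R4.DM.co_smul] }
  let L : (S →₀ ℚ) →ₗ[ℚ] (A →ₗ[ℚ] ℚ) := Finsupp.linearCombination ℚ (fun u : S => co' u.1)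
  let Λ : (S →₀ ℚ) →ₗ[ℚ] (Idx k r → ℚ) :=
    LinearMap.pi fun p => (LinearMap.applyₗ (M p.1.1 (τ p.1.2))) ∘ₗ L
  let φ : (S →₀ ℚ) →ₗ[ℚ] V := Finsupp.linearCombination ℚ (fun u : S => ζ u.1)
  have hker : LinearMap.ker Λ ≤ LinearMap.ker φ := by
    intro c hc
    rw [LinearMap.mem_ker] at hc ⊢
    -- the functional of `c`
    have hLc : ∀ f : A, L c f = (c.sum fun u r => r * co f u.1) := by
      intro f
      show (Finsupp.linearCombination ℚ (fun u : S => co' u.1) c) f = _
      rw [Finsupp.linearCombination_apply, Finsupp.sum, LinearMap.sum_apply, Finsupp.sum]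
      refine Finset.sum_congr rfl fun u _ => ?_
      rw [LinearMap.smul_apply]
      rfl
    have h1 : ∀ (w : List ℕ) (j : ℕ), Ok w → w.sum + 2 * j = k → L c (act σ w (τ j)) = 0 := by
      refine functional_zero τ hτ k r M (fun w hw hk => hM w ⟨hw, hk⟩) (L c) ?_ ?_
      · intro f hf
        rw [hLc, Finsupp.sum]
        refine Finset.sum_eq_zero fun u _ => ?_
        have : co f u.1 = 0 := by
          by_contra hne
          have h2 := hf u.1 hne
          have h3 := u.2.2.2
          omega
        rw [this, mul_zero]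
      · intro p hp
        have := congrFun hc ⟨p, hp⟩
        exact this
    set c' : List (Fin 2) →₀ ℚ := c.mapDomain Subtype.val with hc'
    have h2 := hζ c' (by
      intro u hu
      have h3 := Finsupp.mapDomain_support hu
      rw [Finset.mem_image] at h3
      obtain ⟨v, -, rfl⟩ := h3
      exact ⟨v.2.1, v.2.2.1⟩) (by
      intro w j hw hk
      rw [hc', Finsupp.sum_mapDomain_index (by simp) (by intros; ring), ← hLc]
      exact h1 w j hw hk)
    rw [hc', Finsupp.sum_mapDomain_index (by simp) (by intros; rw [add_smul])] at h2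
    show Finsupp.linearCombination ℚ (fun u : S => ζ u.1) c = 0
    rw [Finsupp.linearCombination_apply]
    exact h2
  have h1 := finrank_range_le_of_ker Λ φ hker
  have h2 : LinearMap.range φ = Submodule.span ℚ {y | ∃ u ∈ W, u.length = k ∧ u.count 1 ≤ r ∧ y = ζ u} := by
    show LinearMap.range (Finsupp.linearCombination ℚ (fun u : S => ζ u.1)) = _
    rw [Finsupp.range_linearCombination]
    congr 1
    ext y
    constructor
    · rintro ⟨u, rfl⟩
      exact ⟨u.1, u.2.1, u.2.2.1, u.2.2.2, rfl⟩
    · rintro ⟨u, h3, h4, h5, rfl⟩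
      exact ⟨⟨u, h3, h4, h5⟩, rfl⟩
  rw [h2, Module.finrank_fintype_fun_eq_card] at h1
  rwa [Set.ncard_eq_toFinset_card' , Set.toFinset_card]

end Pool.Agent.H21.BK
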